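import Pool.Agent.MP_df844f_gt.Defs

namespace Pool.Agent.MP_df844f_gt

theorem adj_symm {s t : S} (h : adj s t) : adj t s := by revert s t; decide
theorem adj_ne {s t : S} (h : adj s t) : s ≠ t := by revert s t; decide
theorem adj_irrefl (s : S) : ¬ adj s s := fun h => adj_ne h rfl

theorem M_apply (s t : S) : M s t = if s = t then 1 else if adj s t then 2 else 0 := rfl

@[simp] theorem g_mul_self (s : S) : g s * g s = 1 := cs.simple_mul_simple_self s
@[simp] theorem g_inv (s : S) : (g s)⁻¹ = g s := cs.inv_simple s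
@[simp] theorem g_mul_g_mul (s : S) (w : W) : g s * (g s * w) = w := by
  rw [← mul_assoc, g_mul_self, one_mul]
@[simp] theorem mul_g_mul_g (s : S) (w : W) : w * g s * g s = w := by
  rw [mul_assoc, g_mul_self, mul_one]

theorem g_comm {s t : S} (h : adj s t) : g s * g t = g t * g s := by
  have h1 := cs.simple_mul_simple_pow s t
  rw [M_apply, if_neg (adj_ne h), if_pos h, pow_two] at h1
  have h2 : g s * g t * (g s * g t) = 1 := h1
  have h3 : g s * g t = (g s * g t)⁻¹ := (eq_inv_iff_mul_eq_one).2 h2
  rw [h3, mul_inv_rev, g_inv, g_inv]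

/-- A map on generators to involutions that commute along edges extends to `W`. -/
theorem exists_hom {G : Type*} [Group G] (f : S → G) (h1 : ∀ s, f s * f s = 1)
    (h2 : ∀ s t, adj s t → f s * f t = f t * f s) : ∃ φ : W →* G, ∀ s, φ (g s) = f s := by
  have hl : M.IsLiftable f := by
    intro s t
    rw [M_apply]
    by_cases hst : s = t
    · subst hst; simp [h1]
    · rw [if_neg hst]
      by_cases ha : adj s t
      · rw [if_pos ha, pow_two]
        calc f s * f t * (f s * f t) = f s * (f t * f s) * f t := by simp only [mul_assoc]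
          _ = f s * (f s * f t) * f t := by rw [← h2 s t ha]
          _ = (f s * f s) * (f t * f t) := by simp only [mul_assoc]
          _ = 1 := by rw [h1, h1, one_mul]
      · rw [if_neg ha, pow_zero]
  exact ⟨cs.lift ⟨f, hl⟩, fun s => cs.lift_apply_simple hl s⟩

theorem g_inj {s t : S} (h : g s = g t) : s = t := by
  by_contra hne
  obtain ⟨φ, hφ⟩ := exists_hom (G := Multiplicative (ZMod 2))
    (fun u => if u = s then Multiplicative.ofAdd 1 else 1)
    (fun u => by split_ifs <;> decide) (fun u v _ => mul_comm _ _)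
  have h1 := hφ s
  have h2 := hφ t
  rw [h, h2, if_neg (Ne.symm hne), if_pos rfl] at h1
  exact absurd h1 (by decide)

theorem induction_left {p : W → Prop} (w : W) (h1 : p 1) (h2 : ∀ w s, p w → p (g s * w)) : p w :=
  cs.simple_induction_left w h1 h2

theorem len_one : len 1 = 0 := cs.length_one
theorem len_eq_zero {w : W} : len w = 0 ↔ w = 1 := cs.length_eq_zero_iff
theorem len_inv (w : W) : len w⁻¹ = len w := cs.length_inv w
theorem len_mul_le (x y : W) : len (x * y) ≤ len x + len y := cs.length_mul_le x y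
theorem len_g (s : S) : len (g s) = 1 := cs.length_simple s
theorem len_g_mul (s : S) (w : W) : len (g s * w) = len w + 1 ∨ len (g s * w) + 1 = len w :=
  cs.length_simple_mul w s

/-- The sign representation on walls. -/
noncomputable def flipP (s : S) : Equiv.Perm (W × ZMod 2) :=
  Function.Involutive.toPerm
    (fun p => (g s * p.1 * g s, p.2 + if p.1 = g s then 1 else 0)) (by
      rintro ⟨r, e⟩
      have h1 : g s * (g s * r * g s) * g s = r := by simp [mul_assoc]
      have h2 : (g s * r * g s = g s) ↔ r = g s := by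
        constructor
        · intro h; rw [← h1, h]; simp
        · intro h; rw [h]; simp
      simp only [h1, h2, Prod.mk.injEq, true_and]
      split_ifs
      · rw [add_assoc]; have : (1 : ZMod 2) + 1 = 0 := by decide
        rw [this, add_zero]
      · simp)

theorem flipP_apply (s : S) (r : W) (e : ZMod 2) :
    flipP s (r, e) = (g s * r * g s, e + if r = g s then 1 else 0) := rfl

theorem exists_rho : ∃ ρ : W →* Equiv.Perm (W × ZMod 2), ∀ s, ρ (g s) = flipP s := by
  refine exists_hom flipP (fun s => ?_) (fun s t h => ?_)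
  · ext1 p
    exact (flipP s).symm_apply_apply p
  · ext1 p
    obtain ⟨r, e⟩ := p
    have hc := g_comm h
    have k : ∀ s t : S, g s * g t = g t * g s → ((g t * r * g t = g s) ↔ r = g s) := by
      intro s t hc
      constructor
      · intro h
        have : r = g t * (g t * r * g t) * g t := by simp [mul_assoc]
        rw [this, h, ← hc]; simp
      · intro h; rw [h, ← hc]; simp
    simp only [Equiv.Perm.mul_apply, flipP_apply, k s t hc, k t s hc.symm, Prod.mk.injEq]
    constructor
    · calc g s * (g t * r * g t) * g s = (g s * g t) * r * (g t * g s) := by simp only [mul_assoc]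
        _ = (g t * g s) * r * (g s * g t) := by rw [hc]
        _ = _ := by simp only [mul_assoc]
    · ring

theorem rho_word (ρ : W →* Equiv.Perm (W × ZMod 2)) (hρ : ∀ s, ρ (g s) = flipP s) (ω : List S)
    (r : W) (e : ZMod 2) :
    ρ (cs.wordProd ω) (r, e) = (cs.wordProd ω * r * (cs.wordProd ω)⁻¹,
      e + ((cs.rightInvSeq ω).count r : ZMod 2)) := by
  induction ω with
  | nil => simp
  | cons s ω ih =>
    have h0 : cs.wordProd (s :: ω) = g s * cs.wordProd ω := cs.wordProd_cons s ω
    have h1 : cs.rightInvSeq (s :: ω) =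
        ((cs.wordProd ω)⁻¹ * g s * cs.wordProd ω) :: cs.rightInvSeq ω := rfl
    rw [h0, map_mul, Equiv.Perm.mul_apply, ih, hρ, flipP_apply, h1, List.count_cons]
    have h2 : (cs.wordProd ω * r * (cs.wordProd ω)⁻¹ = g s) ↔
        ((cs.wordProd ω)⁻¹ * g s * cs.wordProd ω = r) := by
      constructor
      · intro h; rw [← h]; group
      · intro h; rw [← h]; group
    simp only [Prod.mk.injEq, h2, beq_iff_eq]
    constructor
    · simp [mul_assoc]
    · split_ifs <;> simp [add_assoc]

theorem card_N (w : W) : (N w).card = len w := by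
  obtain ⟨h1, h2⟩ := Classical.choose_spec (cs.exists_isReduced w)
  unfold N
  rw [List.toFinset_card_of_nodup h1.nodup_rightInvSeq, cs.length_rightInvSeq, ← h1.eq, ← h2]
  rfl

theorem rho_N (ρ : W →* Equiv.Perm (W × ZMod 2)) (hρ : ∀ s, ρ (g s) = flipP s) (w r : W)
    (e : ZMod 2) : ρ w (r, e) = (w * r * w⁻¹, e + if r ∈ N w then 1 else 0) := by
  obtain ⟨h1, h2⟩ := Classical.choose_spec (cs.exists_isReduced w)
  have h3 := rho_word ρ hρ (Classical.choose (cs.exists_isReduced w)) r e
  rw [← h2] at h3
  rw [h3]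
  unfold N
  simp only [List.mem_toFinset, Prod.mk.injEq, true_and, add_right_inj]
  split_ifs with h
  · rw [List.count_eq_one_of_mem h1.nodup_rightInvSeq h]; simp
  · rw [List.count_eq_zero_of_not_mem h]; simp

/-- The cocycle formula for inversion sets. -/
theorem mem_N_mul (x y r : W) : r ∈ N (x * y) ↔ ¬ (r ∈ N y ↔ y * r * y⁻¹ ∈ N x) := by
  obtain ⟨ρ, hρ⟩ := exists_rho
  have h1 := rho_N ρ hρ (x * y) r 0
  rw [map_mul, Equiv.Perm.mul_apply, rho_N ρ hρ, rho_N ρ hρ] at h1
  have h2 := congrArg Prod.snd h1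
  simp only at h2
  by_cases a : r ∈ N (x * y) <;> by_cases b : r ∈ N y <;> by_cases c : y * r * y⁻¹ ∈ N x <;>
    simp only [a, b, c, if_true, if_false] at h2 ⊢ <;> first | (exact absurd h2 (by decide)) | simp

theorem N_one : N 1 = ∅ := by
  rw [← Finset.card_eq_zero, card_N, len_one]

theorem N_g (s : S) : N (g s) = {g s} := by
  obtain ⟨ρ, hρ⟩ := exists_rho
  ext r
  have h1 := rho_N ρ hρ (g s) r 0
  rw [hρ, flipP_apply] at h1
  have h2 := congrArg Prod.snd h1
  simp only at h2
  rw [Finset.mem_singleton]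
  by_cases a : r = g s <;> by_cases b : r ∈ N (g s) <;>
    simp only [a, b, if_true, if_false] at h2 ⊢ <;> first | (exact absurd h2 (by decide)) | simp_all

theorem mem_N_g_mul (s : S) (x r : W) : r ∈ N (g s * x) ↔ ¬ (r ∈ N x ↔ r = wall s x) := by
  rw [mem_N_mul, N_g, Finset.mem_singleton]
  have : (x * r * x⁻¹ = g s) ↔ r = wall s x := by
    unfold wall
    constructor
    · intro h; rw [← h]; group
    · intro h; rw [h]; group
  rw [this]

theorem mem_Sep {x y r : W} : r ∈ Sep x y ↔ ¬ (r ∈ N x ↔ r ∈ N y) := by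
  unfold Sep
  rw [Finset.mem_symmDiff]; tauto

theorem Sep_comm (x y : W) : Sep x y = Sep y x := symmDiff_comm _ _
theorem Sep_self (x : W) : Sep x x = ∅ := by ext r; simp [mem_Sep]
theorem Sep_one (x : W) : Sep 1 x = N x := by ext r; simp [mem_Sep, N_one]

/-- Right translation of separating walls. -/
theorem mem_Sep_mul (x y c r : W) : r ∈ Sep (x * c) (y * c) ↔ c * r * c⁻¹ ∈ Sep x y := by
  rw [mem_Sep, mem_Sep, mem_N_mul, mem_N_mul]; tauto

theorem Sep_g_mul (s : S) (x : W) : Sep x (g s * x) = {wall s x} := by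
  ext r; rw [mem_Sep, mem_N_g_mul, Finset.mem_singleton]; tauto

theorem wall_g_mul (s : S) (x : W) : wall s (g s * x) = wall s x := by
  unfold wall; simp [mul_assoc]

theorem wall_adj {s t : S} (h : adj s t) (x : W) : wall s (g t * x) = wall s x := by
  unfold wall
  rw [mul_inv_rev, g_inv]
  calc x⁻¹ * g t * g s * (g t * x) = x⁻¹ * (g t * g s) * (g t * x) := by simp only [mul_assoc]
    _ = x⁻¹ * (g s * g t) * (g t * x) := by rw [g_comm h]
    _ = _ := by simp [mul_assoc]

theorem wall_inj {s t : S} {x : W} (h : wall s x = wall t x) : s = t := by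
  unfold wall at h
  exact g_inj (mul_left_cancel (mul_right_cancel h))

theorem wall_mul (s : S) (x c : W) : wall s (x * c) = c⁻¹ * wall s x * c := by
  unfold wall; group

theorem d_mul (x y c : W) : d (x * c) (y * c) = d x y := by
  unfold d; congr 1; group

theorem d_one (x : W) : d 1 x = len x := by
  unfold d; rw [one_mul, len_inv]

theorem card_Sep (x y : W) : (Sep x y).card = d x y := by
  have h : d x y = (Sep (x * y⁻¹) 1).card := by
    rw [Sep_comm, Sep_one, card_N]; rfl
  rw [h]
  refine Finset.card_bij (fun r _ => y * r * y⁻¹) ?_ ?_ ?_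
  · intro r hr
    have := (mem_Sep_mul (x * y⁻¹) 1 y r).1 (by simpa using hr)
    exact this
  · intro a _ b _ hab
    simpa using hab
  · intro q hq
    refine ⟨y⁻¹ * q * y, ?_, by group⟩
    have := (mem_Sep_mul (x * y⁻¹) 1 y (y⁻¹ * q * y)).2 (by
      have e : y * (y⁻¹ * q * y) * y⁻¹ = q := by group
      rwa [e])
    simpa using this

theorem d_comm (x y : W) : d x y = d y x := by rw [← card_Sep, ← card_Sep, Sep_comm]
theorem d_self (x : W) : d x x = 0 := by rw [← card_Sep, Sep_self]; rfl
theorem d_eq_zero {x y : W} : d x y = 0 ↔ x = y := by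
  unfold d; rw [len_eq_zero, mul_inv_eq_one]
theorem d_triangle (x y z : W) : d x z ≤ d x y + d y z := by
  unfold d
  have : x * z⁻¹ = (x * y⁻¹) * (y * z⁻¹) := by group
  rw [this]; exact len_mul_le _ _
theorem d_g_mul (s : S) (x : W) : d x (g s * x) = 1 := by
  rw [← card_Sep, Sep_g_mul]; rfl
theorem d_mul_left (a x : W) : d x (a * x) = len a := by
  rw [d_comm]; unfold d; congr 1; group

theorem N_inj {x y : W} (h : N x = N y) : x = y := by
  rw [← d_eq_zero, ← card_Sep]; unfold Sep; rw [h]; simp

theorem eq_of_Sep_eq {b x y : W} (h : Sep b x = Sep b y) : x = y := by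
  apply N_inj
  ext r
  have := Finset.ext_iff.1 h r
  rw [mem_Sep, mem_Sep] at this; tauto

theorem mem_Sep_step (b x r : W) (s : S) :
    r ∈ Sep b (g s * x) ↔ ¬ (r ∈ Sep b x ↔ r = wall s x) := by
  rw [mem_Sep, mem_Sep, mem_N_g_mul]; tauto

theorem Sep_step_of_mem {b x : W} {s : S} (h : wall s x ∈ Sep b x) :
    Sep b (g s * x) = (Sep b x).erase (wall s x) := by
  ext r; rw [mem_Sep_step, Finset.mem_erase]
  by_cases a : r = wall s x
  · subst a; simp [h]
  · simp [a]

theorem Sep_step_of_not_mem {b x : W} {s : S} (h : wall s x ∉ Sep b x) :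
    Sep b (g s * x) = insert (wall s x) (Sep b x) := by
  ext r; rw [mem_Sep_step, Finset.mem_insert]
  by_cases a : r = wall s x
  · subst a; simp [h]
  · simp [a]

theorem d_step_of_mem {b x : W} {s : S} (h : wall s x ∈ Sep b x) : d b (g s * x) + 1 = d b x := by
  rw [← card_Sep, ← card_Sep, Sep_step_of_mem h, Finset.card_erase_add_one h]

theorem d_step_of_not_mem {b x : W} {s : S} (h : wall s x ∉ Sep b x) :
    d b (g s * x) = d b x + 1 := by
  rw [← card_Sep, ← card_Sep, Sep_step_of_not_mem h, Finset.card_insert_of_notMem h]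

theorem desc_iff {b x : W} {s : S} : Desc b x s ↔ wall s x ∈ Sep b x := by
  unfold Desc
  by_cases h : wall s x ∈ Sep b x
  · have := d_step_of_mem h; simp [h]; omega
  · have := d_step_of_not_mem h; simp [h]; omega

theorem Desc.d_eq {b x : W} {s : S} (h : Desc b x s) : d b (g s * x) + 1 = d b x :=
  d_step_of_mem (desc_iff.1 h)

theorem d_eq_of_not_desc {b x : W} {s : S} (h : ¬ Desc b x s) : d b (g s * x) = d b x + 1 :=
  d_step_of_not_mem (fun k => h (desc_iff.2 k))

theorem exists_desc {b x : W} (h : x ≠ b) : ∃ s, Desc b x s := by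
  have h1 : x * b⁻¹ ≠ 1 := fun k => h (mul_inv_eq_one.1 k)
  obtain ⟨s, hs⟩ := cs.exists_leftDescent_of_ne_one h1
  refine ⟨s, ?_⟩
  unfold Desc
  rw [d_comm b, d_comm b x]
  unfold d
  rw [mul_assoc]
  exact hs

theorem btw_iff {a u b : W} : Btw a u b ↔ Sep a u ⊆ Sep a b := by
  unfold Btw
  rw [← card_Sep, ← card_Sep, ← card_Sep]
  have e1 : Sep a b = symmDiff (Sep a u) (Sep u b) := by
    ext r; rw [Finset.mem_symmDiff, mem_Sep, mem_Sep, mem_Sep]; tauto
  have e2 : (Sep a u).card + (Sep u b).card =
      (Sep a b).card + 2 * (Sep a u ∩ Sep u b).card := by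
    have h1 := Finset.card_union_add_card_inter (Sep a u) (Sep u b)
    have h2 : Sep a u ∪ Sep u b = Sep a b ∪ (Sep a u ∩ Sep u b) := by
      ext r; simp only [Finset.mem_union, Finset.mem_inter, mem_Sep]; tauto
    have h3 : Disjoint (Sep a b) (Sep a u ∩ Sep u b) := by
      rw [Finset.disjoint_left]; intro r; simp only [Finset.mem_inter, mem_Sep]; tauto
    rw [h2, Finset.card_union_of_disjoint h3] at h1
    omega
  constructor
  · intro h r hr
    have h0 : (Sep a u ∩ Sep u b).card = 0 := by omega
    rw [Finset.card_eq_zero] at h0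
    have : r ∉ Sep a u ∩ Sep u b := by rw [h0]; simp
    simp only [Finset.mem_inter, mem_Sep] at this hr ⊢; tauto
  · intro h
    have h0 : Sep a u ∩ Sep u b = ∅ := by
      ext r
      have := @h r
      simp only [Finset.mem_inter, mem_Sep, Finset.notMem_empty] at this ⊢; tauto
    rw [h0] at e2; simpa using e2

/-- `u` is between `a` and `b` iff no wall has `a, b` on one side and `u` on the other. -/
theorem btw_iff' {a u b : W} : Btw a u b ↔ ∀ r, (r ∈ N a ↔ r ∈ N b) → (r ∈ N u ↔ r ∈ N a) := by
  rw [btw_iff]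
  constructor
  · intro h r hr
    have := @h r
    simp only [mem_Sep] at this; tauto
  · intro h r hr
    have := h r
    simp only [mem_Sep] at hr ⊢; tauto

theorem Btw.symm {a u b : W} (h : Btw a u b) : Btw b u a := by
  unfold Btw at *; rw [d_comm b u, d_comm u a, d_comm b a]; omega

theorem btw_mul {a u b : W} (c : W) : Btw (a * c) (u * c) (b * c) ↔ Btw a u b := by
  unfold Btw; rw [d_mul, d_mul, d_mul]

theorem Desc.btw {b x : W} {s : S} (h : Desc b x s) : Btw b (g s * x) x := by
  unfold Btw
  have := h.d_eq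
  rw [d_comm (g s * x) x, d_g_mul]; exact this

theorem desc_mul {b x : W} {s : S} (c : W) : Desc (b * c) (x * c) s ↔ Desc b x s := by
  unfold Desc; rw [← mul_assoc, d_mul, d_mul]

end Pool.Agent.MP_df844f_gt
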