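import Mathlib

/-! The right-angled Coxeter group on the icosahedron graph (reflection group of the right-angled
regular hyperbolic dodecahedron) and its walls. -/

namespace Pool.Agent.MP_df844f_gt

/-- The twelve faces of the dodecahedron = vertices of the icosahedron. -/
abbrev S := Fin 12

/-- Neighbours in the icosahedron graph: 0 top, 1..5 upper ring, 6..10 lower ring, 11 bottom. -/
def nb : S → List S :=
  ![[1, 2, 3, 4, 5], [0, 2, 5, 6, 7], [0, 1, 3, 7, 8], [0, 2, 4, 8, 9], [0, 3, 5, 9, 10],
    [0, 1, 4, 6, 10], [1, 5, 7, 10, 11], [1, 2, 6, 8, 11], [2, 3, 7, 9, 11], [3, 4, 8, 10, 11],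
    [4, 5, 6, 9, 11], [6, 7, 8, 9, 10]]

/-- Adjacency in the icosahedron graph. -/
def adj (s t : S) : Prop := t ∈ nb s

instance : DecidableRel adj := fun s t => inferInstanceAs (Decidable (t ∈ nb s))

/-- The right-angled Coxeter matrix: 2 on edges of the icosahedron, 0 (= infinity) on non-edges. -/
def M : CoxeterMatrix S where
  M := Matrix.of fun s t => if s = t then 1 else if adj s t then 2 else 0
  isSymm := by
    refine Matrix.IsSymm.ext ?_
    decide
  diagonal := by decide
  off_diagonal := by decide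

/-- The Coxeter group. -/
abbrev W : Type := M.Group

/-- The Coxeter system. -/
def cs : CoxeterSystem M W := M.toCoxeterSystem

/-- Generators. -/
def g (s : S) : W := cs.simple s

/-- Word length. -/
noncomputable def len (w : W) : ℕ := cs.length w

noncomputable instance : DecidableEq W := Classical.decEq W

/-- Right invariant word metric: `w` and `g s * w` are adjacent chambers. -/
noncomputable def d (x y : W) : ℕ := len (x * y⁻¹)

/-- The walls separating `w` from `1`. -/
noncomputable def N (w : W) : Finset W :=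
  (cs.rightInvSeq (Classical.choose (cs.exists_isReduced w))).toFinset

/-- The wall between `x` and `g s * x`. -/
def wall (s : S) (x : W) : W := x⁻¹ * g s * x

/-- The walls separating `x` from `y`. -/
noncomputable def Sep (x y : W) : Finset W := symmDiff (N x) (N y)

/-- `u` lies on a geodesic from `a` to `b`. -/
def Btw (a u b : W) : Prop := d a u + d u b = d a b

/-- Convex sets of chambers. -/
def Cvx (K : Set W) : Prop := ∀ a ∈ K, ∀ b ∈ K, ∀ u, Btw a u b → u ∈ K

/-- Two walls cross: all four quadrants are inhabited. -/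
def Cross (r q : W) : Prop :=
  (∃ a, r ∈ N a ∧ q ∈ N a) ∧ (∃ a, r ∈ N a ∧ q ∉ N a) ∧ (∃ a, r ∉ N a ∧ q ∈ N a) ∧
    (∃ a, r ∉ N a ∧ q ∉ N a)

/-- Closeness: no ten pairwise non-crossing walls separate `x` from `y`. -/
def Close (x y : W) : Prop :=
  ∀ C : Finset W, C ⊆ Sep x y → (∀ r ∈ C, ∀ q ∈ C, ¬ Cross r q) → C.card ≤ 9

/-- `m` is the median of `x, y, z`. -/
def IsMed (x y z m : W) : Prop :=
  ∀ r, r ∈ N m ↔ (r ∈ N x ∧ r ∈ N y) ∨ (r ∈ N y ∧ r ∈ N z) ∨ (r ∈ N x ∧ r ∈ N z)

/-- Intersection of all half spaces containing `F`. -/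
def hull (F : Finset W) : Set W :=
  {x | ∀ r, ((∀ a ∈ F, r ∈ N a) → r ∈ N x) ∧ ((∀ a ∈ F, r ∉ N a) → r ∉ N x)}

/-- The walls separating two points of `F`. -/
noncomputable def sepW (F : Finset W) : Finset W :=
  F.biUnion fun a => F.biUnion fun b => Sep a b

/-- Cliques of the icosahedron graph. -/
def Clq (J : Finset S) : Prop := ∀ s ∈ J, ∀ t ∈ J, s ≠ t → adj s t

instance : DecidablePred Clq := fun J =>
  inferInstanceAs (Decidable (∀ s ∈ J, ∀ t ∈ J, s ≠ t → adj s t))

/-- `s` leads from `x` towards `b`. -/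
def Desc (b x : W) (s : S) : Prop := d b (g s * x) < d b x

end Pool.Agent.MP_df844f_gt
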