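import Pool.Agent.MP_df844f_gt.Spec

namespace Pool.Agent.MP_df844f_gt

open PS

theorem mainS (hi : InitS) (hp : PushS) (ha : AreaS) (hn : NoEndS) (hv : VolS) : MainS := by
  intro H
  obtain ⟨A, C1, ρ1, ha⟩ := ha H
  obtain ⟨C2, ρ2, hn⟩ := hn H
  obtain ⟨Cp, ρ3, hp⟩ := hp
  refine ⟨2 * (H * (A + Cp + 12) + 1 + (C1 + C2) + Cp), ρ1 + ρ2 + ρ3, ?_⟩
  intro B _ _ o ht hth he T hT
  by_contra hlt
  push Not at hlt
  generalize hr : T.card = r at hlt
  have hA : H * (A * (r + 1) + Cp + 12) ≤ H * (A + Cp + 12) * (r + 1) := by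
    rw [mul_assoc]
    exact Nat.mul_le_mul_left _ (by nlinarith)
  have hN : 2 * (H * (A * (r + 1) + Cp + 12) + 1 + (C1 + C2) + Cp) ≤ Nat.card B := by nlinarith
  generalize hA' : A * (r + 1) + Cp + 12 = A' at hA hN
  have key : ∀ (μ a : ℕ) (Y : PS B) (x0 : Y.Om), Y.State → Y.Inv o x0 r μ → Y.area = a →
      a ≤ A' → Y.vol ≤ H * A' + 1 → False := by
    intro μ
    induction μ using Nat.strong_induction_on with
    | _ μ ihμ =>
      intro a
      induction a using Nat.strong_induction_on with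
      | _ a iha =>
        intro Y x0 hs hI hae hal hvl
        have small : ∀ Y' : PS B, Y'.State → Y'.vol ≤ Y.vol + (C1 + C2) + Cp → Y'.area ≤ A' →
            Y'.vol ≤ H * A' + 1 := by
          intro Y' hs' h1 h2
          have := hv B H he Y' hs' (by omega)
          have := Nat.mul_le_mul_left H h2
          omega
        by_cases tg : Y.Tight o x0 r (C1 + C2)
        · have h1 := ha B o ht (hth.mono (by omega)) he Y x0 r μ hs hI (by omega)
            (tg.mono (by omega))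
          obtain ⟨Λ, hΛ, hm⟩ := hI
          cases Λ with
          | nil =>
            exact hn B o ht (hth.mono (by omega)) he Y x0 r hs hΛ (by omega) (tg.mono (by omega))
          | cons l Λ =>
            obtain ⟨Y', x0', Λ', a1, a2, a3, a4, a5⟩ := hp B o (hth.mono (by omega)) Y x0 r l Λ hΛ
            exact ihμ (meas Λ') (by omega) _ Y' x0' a1 ⟨Λ', a2, le_rfl⟩ rfl (by omega)
              (small Y' a1 (by omega) (by omega))
        · unfold PS.Tight at tg
          push Not at tg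
          obtain ⟨Y', x0', a1, a2, a3, a4⟩ := tg
          exact iha Y'.area (by omega) Y' x0' a1 (a2 μ hI) rfl (by omega)
            (small Y' a1 (by omega) (by omega))
  obtain ⟨Y, x0, μ, a1, a2, a3, a4⟩ := hi B o ht T hT
  rw [hr] at a2
  exact key μ _ Y x0 a1 a2 rfl (by omega) (by omega)

instance fgW : Group.FG W :=
  ⟨⟨Finset.univ.image g, by
    rw [Finset.coe_image, Finset.coe_univ, Set.image_univ]
    exact cs.subgroup_closure_range_simple⟩⟩

theorem final_of (hm : MainS) (h : ℝ) (hh : 0 < h) :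
    ∃ (ρ : ℕ) (c : ℝ), 0 < c ∧ ∀ (Γ : Subgroup W) [Γ.FiniteIndex],
      (∀ γ ∈ Γ, γ ≠ 1 → ∀ w : W, ρ < len (w * γ * w⁻¹)) →
      (∀ U : Set (W ⧸ Γ), 2 * U.ncard ≤ Γ.index →
        h * U.ncard ≤ {p : (W ⧸ Γ) × S | p.1 ∈ U ∧ g p.2 • p.1 ∉ U}.ncard) →
      c * Γ.index ≤ Group.rank Γ := by
  obtain ⟨A, ρ, hm⟩ := hm ⌈1 / h⌉₊
  refine ⟨ρ, 1 / (2 * (A + 1)), by positivity, ?_⟩
  intro Γ _ hinj hexp
  obtain ⟨T0, hT1, hT2⟩ := Group.rank_spec Γ
  have hcl : Subgroup.closure ((T0.image Γ.subtype : Finset W) : Set W) = Γ := by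
    rw [Finset.coe_image, ← MonoidHom.map_closure, hT2, ← MonoidHom.range_eq_map,
      Subgroup.range_subtype]
  have hsm : ∀ w : W, w • ((1 : W) : W ⧸ Γ) = (w : W ⧸ Γ) := fun w => by
    rw [MulAction.Quotient.smul_coe, smul_eq_mul, mul_one]
  have h1 := hm (W ⧸ Γ) ((1 : W) : W ⧸ Γ)
    (fun b => by
      obtain ⟨w, rfl⟩ := QuotientGroup.mk_surjective b
      exact ⟨w, hsm w⟩)
    (fun w w' e hd => by
      rw [hsm, hsm, QuotientGroup.eq] at e
      by_contra hne
      have := hinj _ e (fun k => hne (inv_mul_eq_one.1 k)) w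
      rw [d_comm] at hd
      unfold d at hd
      have e2 : w * (w⁻¹ * w') * w⁻¹ = w' * w⁻¹ := by group
      rw [e2] at this
      omega)
    (fun U hU => by
      have a := hexp U hU
      have b : 1 / h ≤ (⌈1 / h⌉₊ : ℝ) := Nat.le_ceil _
      have c : (U.ncard : ℝ) ≤ (⌈1 / h⌉₊ : ℝ) *
          ({p : (W ⧸ Γ) × S | p.1 ∈ U ∧ g p.2 • p.1 ∉ U}.ncard : ℝ) := by
        calc (U.ncard : ℝ) = 1 / h * (h * U.ncard) := by field_simp
          _ ≤ _ := mul_le_mul b a (by positivity) (by positivity)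
      exact_mod_cast c)
    (T0.image Γ.subtype)
    (by rw [hcl, MulAction.stabilizer_quotient])
  have h2 : (T0.image Γ.subtype).card ≤ Group.rank Γ := hT1 ▸ Finset.card_image_le
  have h3 : 1 ≤ (T0.image Γ.subtype).card := by
    by_contra k
    have k' : T0.image Γ.subtype = ∅ := Finset.card_eq_zero.1 (by omega)
    rw [k', Finset.coe_empty, Subgroup.closure_empty] at hcl
    have := Subgroup.FiniteIndex.index_ne_zero (H := Γ)
    rw [← hcl, Subgroup.index_bot] at this
    exact this (@Nat.card_eq_zero_of_infinite W infinite_W)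
  have h4 : Γ.index ≤ 2 * (A + 1) * Group.rank Γ := by
    have : Γ.index = Nat.card (W ⧸ Γ) := rfl
    nlinarith
  have h5 : (Γ.index : ℝ) ≤ 2 * (A + 1) * Group.rank Γ := by exact_mod_cast h4
  rw [div_mul_eq_mul_div, one_mul, div_le_iff₀ (by positivity)]
  linarith

end Pool.Agent.MP_df844f_gt
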