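import Pool.Agent.MP_df844f_gt.Basic

namespace Pool.Agent.MP_df844f_gt

theorem len_mul_lt_of_mem_N {w r : W} (h : r ∈ N w) : len (w * r) < len w := by
  obtain ⟨h1, h2⟩ := Classical.choose_spec (cs.exists_isReduced w)
  have h3 : r ∈ cs.rightInvSeq (Classical.choose (cs.exists_isReduced w)) := by
    simpa [N] using h
  have h4 := (cs.isRightInversion_of_mem_rightInvSeq h1 h3).2
  rw [← h2] at h4
  exact h4

theorem pow_ne_one {s t : S} (hne : s ≠ t) (h : ¬ adj s t) (n : ℕ) : (g s * g t) ^ (n + 1) ≠ 1 := by
  let a : Equiv.Perm ℤ := Function.Involutive.toPerm (fun z => -z) (fun z => by simp)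
  let b : Equiv.Perm ℤ := Function.Involutive.toPerm (fun z => 1 - z) (fun z => by simp)
  obtain ⟨φ, hφ⟩ := exists_hom (G := Equiv.Perm ℤ)
    (fun u => if u = s then a else if u = t then b else 1)
    (fun u => by
      split_ifs
      · ext z; simp [a]
      · ext z; simp [b]
      · simp)
    (fun u v huv => by
      have h1 := adj_ne huv
      by_cases us : u = s
      · subst us
        have : v ≠ t := fun k => h (k ▸ huv)
        simp [h1.symm, this]
      · by_cases ut : u = t
        · subst ut
          have : v ≠ s := fun k => h (k ▸ adj_symm huv)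
          simp [h1.symm, this]
        · simp [us, ut])
  have hs : φ (g s) = a := by rw [hφ]; simp
  have ht : φ (g t) = b := by rw [hφ]; simp [hne.symm]
  have key : ∀ m : ℕ, ((a * b) ^ m) 0 = -(m : ℤ) := by
    intro m
    induction m with
    | zero => simp
    | succ m ih =>
      rw [pow_succ', Equiv.Perm.mul_apply, ih]
      simp [a, b]; ring
  intro k
  have := key (n + 1)
  rw [← hs, ← ht, ← map_mul, ← map_pow, k, map_one] at this
  simp at this
  omega

theorem alt_shift (s t : S) (m : ℕ) : (g t * g s) ^ m * g t = g t * (g s * g t) ^ m := by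
  induction m with
  | zero => simp
  | succ m ih => rw [pow_succ', pow_succ', mul_assoc, ih]; simp [mul_assoc]

theorem alt_mem {s t : S} (hne : s ≠ t) (h : ¬ adj s t) {x : W} (hx : wall t x ∈ N x) (m : ℕ) :
    wall t x ∈ N ((g t * g s) ^ m * x) ∧ wall t x ∈ N (g s * ((g t * g s) ^ m * x)) := by
  have hinv : ∀ m : ℕ, ((g t * g s) ^ m)⁻¹ = (g s * g t) ^ m := by
    intro m; rw [← inv_pow, mul_inv_rev, g_inv, g_inv]
  have step1 : ∀ m : ℕ, wall t x ∈ N ((g t * g s) ^ m * x) →
      wall t x ∈ N (g s * ((g t * g s) ^ m * x)) := by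
    intro m hm
    rw [mem_N_g_mul]
    have : wall t x ≠ wall s ((g t * g s) ^ m * x) := by
      intro k
      apply pow_ne_one hne h (2 * m)
      unfold wall at k
      rw [mul_inv_rev, hinv] at k
      have k2 : g t = (g s * g t) ^ m * g s * (g t * g s) ^ m := by
        have : x⁻¹ * g t * x = x⁻¹ * ((g s * g t) ^ m * g s * (g t * g s) ^ m) * x := by
          rw [k]; simp only [mul_assoc]
        exact mul_left_cancel (mul_right_cancel this)
      have k3 : g t * g t = (g s * g t) ^ m * g s * ((g t * g s) ^ m * g t) := by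
        rw [← mul_assoc, ← k2]
      rw [g_mul_self, alt_shift s t m] at k3
      rw [k3, two_mul, add_assoc, pow_add, pow_succ']
      simp only [mul_assoc]
    simp [hm, this]
  have step2 : ∀ m : ℕ, wall t x ∈ N (g s * ((g t * g s) ^ m * x)) →
      wall t x ∈ N ((g t * g s) ^ (m + 1) * x) := by
    intro m hm
    have e : (g t * g s) ^ (m + 1) * x = g t * (g s * ((g t * g s) ^ m * x)) := by
      rw [pow_succ']; simp only [mul_assoc]
    rw [e, mem_N_g_mul]
    have : wall t x ≠ wall t (g s * ((g t * g s) ^ m * x)) := by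
      intro k
      apply pow_ne_one hne h (2 * m + 1)
      unfold wall at k
      rw [mul_inv_rev, mul_inv_rev, hinv, g_inv] at k
      have k2 : g t = (g s * g t) ^ m * g s * g t * g s * (g t * g s) ^ m := by
        have : x⁻¹ * g t * x =
            x⁻¹ * ((g s * g t) ^ m * g s * g t * g s * (g t * g s) ^ m) * x := by
          rw [k]; simp only [mul_assoc]
        exact mul_left_cancel (mul_right_cancel this)
      have k3 : g t * g t = (g s * g t) ^ m * g s * g t * g s * ((g t * g s) ^ m * g t) := by
        rw [← mul_assoc, ← k2]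
      rw [g_mul_self, alt_shift s t m] at k3
      have e2 : 2 * m + 1 + 1 = m + ((m + 1) + 1) := by ring
      rw [k3, e2, pow_add, pow_succ', pow_succ']
      simp only [mul_assoc]
    simp [hm, this]
  induction m with
  | zero => exact ⟨by simpa using hx, step1 0 (by simpa using hx)⟩
  | succ m ih => exact ⟨step2 m ih.2, step1 _ (step2 m ih.2)⟩

/-- (T1) Two different descents are adjacent. -/
theorem desc_adj {b x : W} {s t : S} (hs : Desc b x s) (ht : Desc b x t) (hne : s ≠ t) :
    adj s t := by
  by_contra h
  have tr : ∀ u : S, Desc b x u → wall u (x * b⁻¹) ∈ N (x * b⁻¹) := by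
    intro u hu
    have := (desc_mul (b := b) (x := x) (s := u) b⁻¹).2 hu
    rw [mul_inv_cancel, desc_iff, Sep_one] at this
    exact this
  have hs' := tr s hs
  have ht' := tr t ht
  generalize x * b⁻¹ = y at hs' ht'
  have h' : ¬ adj t s := fun k => h (adj_symm k)
  have key : ∀ m : ℕ, len ((g t * g s) ^ (m + 1) * y) < len ((g t * g s) ^ m * y) := by
    intro m
    have a1 := len_mul_lt_of_mem_N (alt_mem hne h ht' m).1
    have a2 := len_mul_lt_of_mem_N (alt_mem hne.symm h' hs' m).2
    have e1 : (g t * g s) ^ m * y * wall t y = g t * ((g s * g t) ^ m * y) := by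
      unfold wall
      rw [← mul_assoc (g t), ← alt_shift]; group
    have e2 : g t * ((g s * g t) ^ m * y) * wall s y = (g t * g s) ^ (m + 1) * y := by
      unfold wall
      rw [← mul_assoc (g t), ← alt_shift, pow_succ]; group
    rw [e1] at a1; rw [e2] at a2
    exact a2.trans a1
  have : ∀ m : ℕ, len ((g t * g s) ^ m * y) + m ≤ len y := by
    intro m
    induction m with
    | zero => simp
    | succ m ih => have := key m; omega
  have := this (len y + 1)
  omega

/-- (T2) If `x` is not between `b` and `y`, some descent of `x` towards `b` crosses a wall that does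
not separate `b` from `y`. -/
theorem exists_desc_of_not_subset (b : W) : ∀ (n : ℕ) (x y : W), d x y = n →
    ¬ Sep b x ⊆ Sep b y → ∃ s, wall s x ∈ Sep b x ∧ wall s x ∉ Sep b y := by
  intro n
  induction n with
  | zero => intro x y h k; rw [d_eq_zero] at h; subst h; exact absurd (Finset.Subset.refl _) k
  | succ n ih =>
    intro x y h k
    have hne : x ≠ y := by intro e; rw [e, d_self] at h; omega
    obtain ⟨u, hu⟩ := exists_desc hne
    have hu1 := desc_iff.1 hu
    by_cases c : wall u x ∈ Sep b x
    · refine ⟨u, c, ?_⟩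
      rw [mem_Sep] at hu1 c ⊢; tauto
    · have hd : d (g u * x) y = n := by
        have := hu.d_eq; rw [d_comm y, d_comm y x] at this; omega
      have hk : ¬ Sep b (g u * x) ⊆ Sep b y := by
        intro q; apply k
        rw [Sep_step_of_not_mem c] at q
        exact (Finset.subset_insert _ _).trans q
      obtain ⟨t, ht1, ht2⟩ := ih _ y hd hk
      have hub : wall u (g u * x) ∈ Sep b (g u * x) := by
        rw [wall_g_mul, Sep_step_of_not_mem c]; exact Finset.mem_insert_self _ _
      have huy : wall u x ∈ Sep b y := by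
        rw [mem_Sep] at hu1 c ⊢; tauto
      have htu : t ≠ u := by
        intro e; subst e; rw [wall_g_mul] at ht2; exact ht2 huy
      have ha : adj t u := desc_adj (desc_iff.2 ht1) (desc_iff.2 hub) htu
      rw [wall_adj ha] at ht1 ht2
      refine ⟨t, ?_, ht2⟩
      rw [Sep_step_of_not_mem c, Finset.mem_insert] at ht1
      rcases ht1 with e | e
      · exact absurd (wall_inj e) htu
      · exact e

theorem exists_desc_of_not_btw {b x y : W} (h : ¬ Sep b x ⊆ Sep b y) :
    ∃ s, wall s x ∈ Sep b x ∧ wall s x ∉ Sep b y :=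
  exists_desc_of_not_subset b _ x y rfl h

/-- Meets relative to a base chamber. -/
theorem exists_meet (b y : W) : ∀ (n : ℕ) (x : W), d b x = n →
    ∃ m, Sep b m = Sep b x ∩ Sep b y := by
  intro n
  induction n with
  | zero =>
    intro x h; rw [d_eq_zero] at h; subst h
    exact ⟨b, by simp [Sep_self]⟩
  | succ n ih =>
    intro x h
    by_cases k : Sep b x ⊆ Sep b y
    · exact ⟨x, (Finset.inter_eq_left.2 k).symm⟩
    · obtain ⟨s, h1, h2⟩ := exists_desc_of_not_btw k
      have hd : d b (g s * x) = n := by have := d_step_of_mem h1; omega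
      obtain ⟨m, hm⟩ := ih _ hd
      refine ⟨m, ?_⟩
      rw [hm, Sep_step_of_mem h1]
      ext r
      simp only [Finset.mem_inter, Finset.mem_erase]
      constructor
      · tauto
      · rintro ⟨a, c⟩
        exact ⟨⟨fun e => h2 (e ▸ c), a⟩, c⟩

/-- (T3) Medians exist. -/
theorem exists_med (x y z : W) : ∃ m, IsMed x y z m := by
  obtain ⟨m, hm⟩ := exists_meet x z _ y rfl
  refine ⟨m, fun r => ?_⟩
  have := Finset.ext_iff.1 hm r
  simp only [Finset.mem_inter, mem_Sep] at this
  tauto

theorem IsMed.btw12 {x y z m : W} (h : IsMed x y z m) : Btw x m y := by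
  rw [btw_iff']; intro r; have := h r; tauto
theorem IsMed.btw23 {x y z m : W} (h : IsMed x y z m) : Btw y m z := by
  rw [btw_iff']; intro r; have := h r; tauto
theorem IsMed.btw13 {x y z m : W} (h : IsMed x y z m) : Btw x m z := by
  rw [btw_iff']; intro r; have := h r; tauto

/-- Every intermediate distance is realised on a geodesic. -/
theorem exists_btw (a b : W) : ∀ k, k ≤ d a b → ∃ u, Btw a u b ∧ d a u = k := by
  intro k
  induction k with
  | zero => intro _; exact ⟨a, by simp [Btw, d_self], d_self a⟩
  | succ k ih =>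
    intro hk
    obtain ⟨u, hu, hd⟩ := ih (by omega)
    have hne : u ≠ b := by intro e; rw [e] at hd; omega
    obtain ⟨s, hs⟩ := exists_desc hne
    have h1 := hs.d_eq
    have h2 := d_triangle a (g s * u) b
    have h3 := d_triangle a u (g s * u)
    rw [d_g_mul] at h3
    unfold Btw at hu ⊢
    rw [d_comm b, d_comm b u] at h1
    exact ⟨g s * u, by omega, by omega⟩

theorem cvx_hull (F : Finset W) : Cvx (hull F) := by
  intro a ha b hb u hu r
  have h1 := ha r; have h2 := hb r; have h3 := btw_iff'.1 hu r
  constructor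
  · intro k; have := h1.1 k; have := h2.1 k; tauto
  · intro k; have := h1.2 k; have := h2.2 k; tauto

theorem subset_hull (F : Finset W) : (F : Set W) ⊆ hull F :=
  fun a ha _ => ⟨fun k => k a ha, fun k => k a ha⟩

end Pool.Agent.MP_df844f_gt
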