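import Pool.Agent.MP_df844f_gt.StC

/-! Statements for sections 2 to 5 of the proof. -/

namespace Pool.Agent.MP_df844f_gt

open PS

/-! ### Section 2: moves -/

def ClosS : Prop := ∀ (B : Type) [MulAction W B] (Y : PS B),
  ∃ (Y' : PS B) (φ : Hom Y Y'), Y'.State ∧ φ.Good ∧ φ.Ctl 0 ∧ φ.new = 0

def WedgeS : Prop := ∀ (B : Type) [MulAction W B] (o : B) (Y : PS B) (J : Type) [Fintype J]
  (z : J → Y.Om) (w : J → W) (K : J → Finset W) (s0 : S),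
  (∀ j, w j • o = Y.f (z j)) → (∀ j, Cvx (K j : Set W)) → (∀ j, w j ∈ K j) →
  ∀ h : ∀ j, g s0 * w j ∈ K j,
  ∃ (Y' : PS B) (φ : Hom Y Y') (ι : ∀ j, EHom (cvxPS (K j)) Y'),
    φ.Good ∧ φ.Ctl (∑ j, (K j).card) ∧ (∀ j k, Y'.f ((ι j).π k) = k.1 • o) ∧
    ∀ j, Y'.e s0 (φ.π (z j)) ((ι j).π ⟨g s0 * w j, h j⟩)

def AttS : Prop := ∀ (B : Type) [MulAction W B] (Y : PS B) (J : Finset S) (y : S → Y.Om) (b : B),
  Y.Att J y b → ∃ (Y' : PS B) (φ : Hom Y Y'), φ.Good ∧ φ.Ctl 0 ∧ φ.new = 1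

def HS : Prop := ∀ (B : Type) [MulAction W B] (o : B) (Y : PS B) (D : HData o Y),
  ∃ (Y' : PS B) (m : Move o Y Y') (ν : Y.Om → Y'.Om),
    (∀ x, D.Kept x → m.K x (ν x)) ∧
    Y'.vol ≤ {x | D.comp x = none}.ncard + ∑ j, (D.Q j).vol ∧
    Y'.area ≤ Y.nF {x | D.comp x = none} + 12 * ∑ j, (D.Q j).vol ∧
    ∀ (n k : Y.Node) (l : ℕ) (ch : Y.Path), Y.TW tt n k l ch → D.comp n.x ≠ none → D.Kept n.x →
      D.Kept k.x → (∀ lw ∈ ch, D.Int lw.1) →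
      (∃ ch', Y'.TW tt ⟨ν n.x, n.w, n.p⟩ ⟨ν k.x, k.w, k.p⟩ (d n.p k.p) ch' ∧
        SameV m.pull ch ch') ∧
      (k.x = n.x → k.w = n.w → SameV m.pull ch [])

/-- Transport of walks with bounded shadows, at equal cost. -/
def BddT {B : Type} [MulAction W B] {o : B} {Y Y' : PS B} (m : Move o Y Y') (ν : Y.Om → Y'.Om) :
    Prop :=
  ∀ (c : W) (R : ℕ) (n k : Y.Node) (l : ℕ) (ch : Y.Path), Y.TW (fun _ p => d c p ≤ R) n k l ch →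
    ∃ ch', Y'.TW (fun _ p => d c p ≤ R + 6) ⟨ν n.x, n.w, n.p⟩ ⟨ν k.x, k.w, k.p⟩ l ch' ∧
      SameV m.pull ch ch'

def SubS : Prop := ∀ (B : Type) [MulAction W B] (o : B) (Y : PS B) (a0 : Y.A) (g1 g2 : W),
  Y.lab a0 = g2 * g1 → len (g2 * g1) = len g1 + len g2 →
  ∃ (Y' : PS B) (m : Move o Y Y') (ν : Y.Om → Y'.Om) (z : Y'.Om),
    (∀ x, m.K x (ν x)) ∧ Y'.vol ≤ Y.vol + 1 ∧ Y'.area ≤ Y.area + 12 ∧ BddT m ν ∧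
    ∀ w p p' q, Close w p → Close (Y.lab a0 * w) p' → IsMed p p' (g1 * w) q →
      Close (g1 * w) q ∧ ∃ ch1 ch2,
        Y'.TW tt ⟨ν (Y.src a0), w, p⟩ ⟨z, g1 * w, q⟩ (d p q) ch1 ∧
        Y'.TW tt ⟨z, g1 * w, q⟩ ⟨ν (Y.src (Y.rev a0)), Y.lab a0 * w, p'⟩ (d q p') ch2 ∧
        SameV m.pull [(.dart a0, w)] (ch1 ++ ch2)

/-- Cutting a walk at cost between 19 and 300. -/
def CutWS : Prop := ∀ (B : Type) [MulAction W B] (o : B) (Y : PS B) (c : W) (R : ℕ)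
  (n k : Y.Node) (l : ℕ) (ch : Y.Path), Y.TW (fun _ p => d c p ≤ R) n k l ch → 19 ≤ l →
  ∃ (Y' : PS B) (m : Move o Y Y') (ν : Y.Om → Y'.Om) (n2 : Y'.Node) (la lb : ℕ)
    (cha chb : Y'.Path),
    (∀ x, m.K x (ν x)) ∧ Y'.vol ≤ Y.vol + 1 ∧ Y'.area ≤ Y.area + 12 ∧ BddT m ν ∧
    Y'.TW tt ⟨ν n.x, n.w, n.p⟩ n2 la cha ∧ Y'.TW tt n2 ⟨ν k.x, k.w, k.p⟩ lb chb ∧
    la + lb ≤ l ∧ 19 ≤ la ∧ la ≤ 300 ∧ d c n2.p ≤ R + 6 ∧ SameV m.pull ch (cha ++ chb)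

/-- A walk inside a ball is straightened at bounded cost. -/
def ShortS : Prop := ∀ R : ℕ, ∃ C : ℕ, ∀ (B : Type) [MulAction W B] (o : B), Thick o (2 * R + 2) →
  ∀ (Y : PS B) (c : W) (n k : Y.Node) (l : ℕ) (ch : Y.Path),
  Y.TW (fun w _ => d c w ≤ R) n k l ch → n.w • o = Y.f n.x →
  ∃ (Y' : PS B) (m : Move o Y Y') (ν : Y.Om → Y'.Om),
    (∀ x, m.K x (ν x)) ∧ Y'.vol ≤ Y.vol + C ∧ Y'.area ≤ Y.area + C ∧
    (∃ ch', Y'.TW tt ⟨ν n.x, n.w, n.p⟩ ⟨ν k.x, k.w, k.p⟩ (d n.p k.p) ch' ∧ SameV m.pull ch ch') ∧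
    (k.x = n.x → k.w = n.w → SameV m.pull ch [])

def PushS : Prop := ∃ C ρ : ℕ, ∀ (B : Type) [MulAction W B] (o : B), Thick o ρ →
  ∀ (Y : PS B) (x0 : Y.Om) (r : ℕ) (l : ℕ × Y.Path) (Λ : List (ℕ × Y.Path)),
  Y.InvL o x0 r (l :: Λ) →
  ∃ (Y' : PS B) (x0' : Y'.Om) (Λ' : List (ℕ × Y'.Path)), Y'.State ∧ Y'.InvL o x0' r Λ' ∧
    meas Λ' < meas (l :: Λ) ∧ Y'.vol ≤ Y.vol + C ∧ Y'.area ≤ Y.area + C

def M1S : Prop := ∀ (B : Type) [MulAction W B] (o : B) (Y : PS B) (Z : Set Y.Om) (pos : Y.Om → W)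
  (x0 : Y.Om) (a1 : Y.A), Y.State → Y.Bead o Z pos → x0 ∉ Z → (∀ a, Y.src a ∈ Z ↔ a = a1) →
  ∃ (Y' : PS B) (m : Move o Y Y') (x0' : Y'.Om), m.K x0 x0' ∧ Y'.State ∧ Y'.vol ≤ Y.vol ∧
    Y'.area + Y.nF Z ≤ Y.area

def M2S : Prop := ∀ (B : Type) [MulAction W B] (o : B) (Y : PS B) (Z : Set Y.Om) (pos : Y.Om → W)
  (x0 : Y.Om) (a1 a2 : Y.A), Y.State → Y.Bead o Z pos → x0 ∉ Z → a1 ≠ a2 → Y.rev a1 ≠ a2 →
  (∀ a, Y.src a ∈ Z ↔ a = a1 ∨ a = a2) →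
  ∃ (Y' : PS B) (m : Move o Y Y') (x0' : Y'.Om), m.K x0 x0' ∧ Y'.State ∧ Y'.vol ≤ Y.vol ∧
    Y'.area + Y.nF Z ≤ Y.area

def BeadDegS : Prop := ∀ (B : Type) [MulAction W B] [Finite B] (o : B), Trans o →
  ∀ (Y : PS B) (x0 : Y.Om) (r μ : ℕ) (Z : Set Y.Om) (pos : Y.Om → W), Y.State → Y.Inv o x0 r μ →
  Y.Tight o x0 r 0 → Y.Bead o Z pos → 0 < Y.nF Z →
  (x0 ∉ Z → 3 ≤ Y.deg Z) ∧ (x0 ∈ Z → 1 ≤ Y.deg Z)

def VolS : Prop := ∀ (B : Type) [MulAction W B] [Finite B] (H : ℕ), Expd B H →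
  ∀ Y : PS B, Y.State → 2 * Y.vol ≤ Nat.card B → Y.vol ≤ H * Y.area

def LamS : Prop := ∀ (B : Type) [MulAction W B] [Finite B] (H : ℕ), Expd B H →
  ∀ (Y Y' : PS B) (φ : Hom Y Y'), Y.State → Y'.State → 2 * (Y.vol + φ.new) ≤ Nat.card B →
  Y.vol + φ.new + H * Y'.area ≤ Y'.vol + H * (Y.area + 12 * φ.new)

def InitS : Prop := ∀ (B : Type) [MulAction W B] [Finite B] (o : B), Trans o →
  ∀ T : Finset W, Subgroup.closure (T : Set W) = MulAction.stabilizer W o →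
  ∃ (Y : PS B) (x0 : Y.Om) (μ : ℕ), Y.State ∧ Y.Inv o x0 T.card μ ∧ Y.vol = 1 ∧ Y.area ≤ 12

/-! ### Sections 3 and 4: sweep, gain, beads -/

def StepS : Prop := ∀ (B : Type) [MulAction W B] (o : B) (n : ℕ), Thick o (2 * n + 20) →
  ∀ (Y : PS B) (x0 : Y.Om) (w0 : W) (u : Y.Chain), Y.State → w0 • o = Y.f x0 →
  (∀ c ∈ u.support, ∃ x s, c = Y.cell x {s} ∧ Y.Near n x0 x) → Y.bd u = 0 → u ≠ 0 →
  (∃ x, Y.Near (n + 1) x0 x ∧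
    (u + Y.bd (Finsupp.single (Y.cell x ∅) 1)).support.card + 6 ≤ u.support.card) ∨
  ∃ J y b, Y.Att J y b

def Sweep0S : Prop := ∀ (B : Type) [MulAction W B] (o : B) (R : ℕ), Thick o (2 * R + 20) →
  ∀ (Y : PS B) (x0 : Y.Om) (w0 : W) (m n : ℕ) (u : Y.Chain), Y.State → w0 • o = Y.f x0 →
  n + m ≤ R → u.support.card ≤ m →
  (∀ c ∈ u.support, ∃ x s, c = Y.cell x {s} ∧ Y.Near n x0 x) → Y.bd u = 0 →
  (∃ Z : Finset Y.Om, Y.bd (Y.ch0 Z) = u ∧ Z.card ≤ m ∧ ∀ z ∈ Z, Y.Near (n + m) x0 z) ∨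
  ∃ J y b, Y.Att J y b

def SweepS : Prop := ∀ (B : Type) [MulAction W B] (o : B) (R : ℕ), Thick o (2 * R + 20) →
  ∀ (Y : PS B) (x0 : Y.Om) (w0 : W) (m n : ℕ) (u : Y.Chain), Y.State → w0 • o = Y.f x0 →
  n + m ≤ R → u.support.card ≤ m →
  (∀ c ∈ u.support, ∃ x s, c = Y.cell x {s} ∧ Y.Near n x0 x) → Y.bd u = 0 →
  ∃ (Y' : PS B) (φ : Hom Y Y') (Z : Finset Y'.Om), Y'.State ∧ φ.Good ∧ φ.Ctl 0 ∧
    Y'.bd (Y'.ch0 Z) = φ.push u ∧ Z.card ≤ m ∧ ∀ z ∈ Z, Y'.Near (n + m) (φ.π x0) z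

/-- Every rank 2 cell with a free side has exactly two free sides. -/
def EdgeS : Prop := ∀ (B : Type) [MulAction W B], Loc B → ∀ Y : PS B, Y.State →
  ∀ x s t, adj s t → Y.Free x s → ∃ y u v, Y.Free y u ∧ adj u v ∧ (y, u) ≠ (x, s) ∧
    Y.cell y {u, v} = Y.cell x {s, t} ∧
    ∀ y' u' v', Y.Free y' u' → adj u' v' → Y.cell y' {u', v'} = Y.cell x {s, t} →
      (y' = x ∧ u' = s ∧ v' = t) ∨ (y' = y ∧ u' = u ∧ v' = v)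

/-- The boundary of a set of free sides. -/
def BdS : Prop := ∀ (B : Type) [MulAction W B], Loc B → ∀ Y : PS B, Y.State →
  ∀ D : Finset (Y.Om × S), (∀ p ∈ D, Y.Free p.1 p.2) → ∀ c, c ∈ (Y.bd (Y.ch1 D)).support ↔
    ∃ p ∈ D, ∃ t, adj p.2 t ∧ c = Y.cell p.1 {p.2, t} ∧
      ∀ q ∈ D, ∀ t', adj q.2 t' → Y.cell q.1 {q.2, t'} = c → q = p

def CapS : Prop := ∃ CK : ℕ, ∀ m0 : ℕ, ∃ ρ : ℕ, ∀ (B : Type) [MulAction W B] (o : B), Trans o →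
  Thick o ρ → ∀ (Y : PS B) (D : Finset (Y.Om × S)) (p0 : Y.Om × S), Y.State → Y.BConn D →
  p0 ∈ D → D.card ≤ m0 →
  ∃ (Y' : PS B) (φ : Hom Y Y') (κ : ℕ) (E : Y'.Chain), Y'.State ∧ φ.Good ∧ φ.Ctl κ ∧
    κ ≤ CK * (Y.bd (Y.ch1 D)).support.card ∧ E.support.card ≤ 12 * κ ∧
    Y'.bd (φ.push (Y.ch1 D) + E) = 0 ∧
    ∀ c ∈ (φ.push (Y.ch1 D) + E).support, ∃ x s, c = Y'.cell x {s} ∧
      Y'.Near (2 * m0 + κ) (φ.π p0.1) x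

def CountS : Prop := ∀ (B : Type) [MulAction W B] (Y Y' : PS B) (φ : Hom Y Y')
  (D : Finset (Y.Om × S)) (E : Y'.Chain) (Z : Finset Y'.Om), Y.State → Y'.State →
  (∀ p ∈ D, Y.Free p.1 p.2) → Y'.bd (Y'.ch0 Z) = φ.push (Y.ch1 D) + E → Y.area ≤ Y'.area →
  D.card ≤ Y'.nF Z + 24 * φ.new + E.support.card ∧ Y'.front Z ≤ 12 * φ.new + E.support.card

def RemS : Prop := ∃ CQ : ℕ, ∀ (B : Type) [MulAction W B] (o : B) (R : ℕ), Trans o →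
  Thick o (2 * R + 2) → ∀ (Y : PS B) (x0 x1 : Y.Om) (Z : Finset Y.Om), Y.State → Y.H0 o x0 →
  (∀ z ∈ Z, Y.Near R x1 z) →
  ∃ (Y' : PS B) (m : Move o Y Y') (x0' : Y'.Om), m.K x0 x0' ∧ Y'.State ∧
    Y'.vol ≤ Y.vol + CQ * (Y.front Z + Y.ends x0 Z) ∧
    Y'.area + Y.nF Z ≤ Y.area + CQ * (Y.front Z + Y.ends x0 Z)

def GainS : Prop := ∃ Cs : ℕ, ∀ H m0 : ℕ, ∃ R C ρ : ℕ, ∀ (B : Type) [MulAction W B] [Finite B]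
  (o : B), Trans o → Thick o ρ → Expd B H → ∀ (Y : PS B) (x0 : Y.Om) (r μ : ℕ), Y.State →
  Y.Inv o x0 r μ → 2 * (Y.vol + C) ≤ Nat.card B → Y.Tight o x0 r C →
  ∀ D : Finset (Y.Om × S), Y.BConn D → D.card ≤ m0 →
  D.card ≤ Cs * ((Y.bd (Y.ch1 D)).support.card + Y.endsN x0 R D)

def BeadS : Prop := ∀ S0 : ℕ, ∃ ρ : ℕ, ∀ (B : Type) [MulAction W B] (o : B), Trans o →
  Thick o ρ → ∀ (Y : PS B) (x0 : Y.Om) (r : ℕ), Y.State → Y.Tight o x0 r 1 →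
  ∀ T : Finset (Y.Om × S), Y.BConn T → T.Nonempty → T.card ≤ S0 →
  (∀ p ∈ T, ∀ q, Y.BAdj p q → q ∈ T) →
  ∃ Z pos, Y.Bead o Z pos ∧ ∀ p : Y.Om × S, p ∈ T ↔ p.1 ∈ Z ∧ Y.Free p.1 p.2

/-! ### Section 5a: abstract surfaces -/

/-- Sides, edges and vertices; every edge has two sides and two end points. -/
structure Surf : Type 1 where
  F : Type
  Ed : Type
  V : Type
  [finF : Finite F]
  [finE : Finite Ed]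
  [finV : Finite V]
  l : Ed → F
  r : Ed → F
  p : Ed → V
  q : Ed → V

attribute [instance] Surf.finF Surf.finE Surf.finV

namespace Surf

variable (X : Surf)

def cut (P : Set X.F) (ε : X.Ed) : Prop := ¬ (X.l ε ∈ P ↔ X.r ε ∈ P)

/-- Adjacency of sides through an edge in `G`. -/
def DA (G : Set X.Ed) (a b : X.F) : Prop :=
  ∃ ε ∈ G, (X.l ε = a ∧ X.r ε = b) ∨ (X.l ε = b ∧ X.r ε = a)

abbrev DAdj : X.F → X.F → Prop := X.DA Set.univ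

def PAdj (a b : X.V) : Prop := ∃ ε, (X.p ε = a ∧ X.q ε = b) ∨ (X.p ε = b ∧ X.q ε = a)

noncomputable def ncomp (G : Set X.Ed) : ℕ := Nat.card (Quot (X.DA G))

def DConn (D : Finset X.F) : Prop :=
  ∀ a ∈ D, ∀ b ∈ D, Relation.ReflTransGen (fun u v => u ∈ D ∧ v ∈ D ∧ X.DAdj u v) a b

structure OK : Prop where
  deg : ∀ σ, {ε | X.l ε = σ ∨ X.r ε = σ}.ncard ≤ 5
  par : ∀ (P : Set X.F) ε v, X.cut P ε → (X.p ε = v ∨ X.q ε = v) →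
    ∃ ε', ε' ≠ ε ∧ X.cut P ε' ∧ (X.p ε' = v ∨ X.q ε' = v)
  cor : ∀ σ ε ε', (X.l ε = σ ∨ X.r ε = σ) → (X.l ε' = σ ∨ X.r ε' = σ) →
    Rn X.PAdj 3 (X.p ε) (X.p ε')
  covV : ∀ v, ∃ ε, X.p ε = v ∨ X.q ε = v
  covF : ∀ σ, ∃ ε, X.l ε = σ ∨ X.r ε = σ

end Surf

def ForestS : Prop := ∀ X : Surf, X.OK → ∀ (RV : Set X.V) (δ : ℕ),
  (∀ v, ∃ u ∈ RV, Rn X.PAdj δ u v) →
  ∃ Fo : Set X.Ed, Nat.card X.V ≤ Fo.ncard + RV.ncard ∧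
    ∀ P : Set X.F, {ε | X.cut P ε ∧ ε ∈ Fo}.ncard ≤ 2 * δ * {ε | X.cut P ε ∧ ε ∉ Fo}.ncard

def TreeS : Prop := ∀ X : Surf, X.OK → ∀ (G : Set X.Ed) (m : ℕ), 0 < m →
  ∃ top : X.F → X.F, (∀ t, {σ | top σ = t}.ncard ≤ 5 * m + 1) ∧
    (∀ σ, Relation.ReflTransGen (fun a b => top a = top σ ∧ top b = top σ ∧ X.DA G a b) σ (top σ)) ∧
    {ε | ε ∈ G ∧ top (X.l ε) ≠ top (X.r ε)}.ncard + Nat.card X.F ≤
      G.ncard + X.ncomp G + Nat.card X.F / m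

def LemSS : Prop := ∀ X : Surf, X.OK → ∀ (R : Set X.F) (ρ m : ℕ), 0 < m →
  (∀ σ, ∃ t ∈ R, Rn X.DAdj ρ t σ) →
  ∃ (top : X.F → X.F) (sp : ℕ), (∀ t, {σ | top σ = t}.ncard ≤ 5 * m + 1) ∧
    (∀ σ, Relation.ReflTransGen (fun a b => top a = top σ ∧ top b = top σ ∧ X.DAdj a b) σ (top σ)) ∧
    {ε | top (X.l ε) ≠ top (X.r ε)}.ncard ≤ (6 * ρ + 9) * sp ∧
    sp + Nat.card X.V + Nat.card X.F ≤
      Nat.card X.Ed + R.ncard + X.ncomp Set.univ + Nat.card X.F / m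

def AbsChiS : Prop := ∀ X : Surf, X.OK →
  Nat.card X.V + Nat.card X.F ≤ Nat.card X.Ed + 2 * X.ncomp Set.univ

def AbsS : Prop := ∀ Cs : ℕ, ∃ m0 C1 C2 : ℕ, ∀ X : Surf, X.OK → ∀ (en : Finset X.F → ℕ) (En : ℕ),
  (∀ D D', D ⊆ D' → en D ≤ en D') →
  (∀ 𝒟 : Finset (Finset X.F), (∀ D ∈ 𝒟, ∀ D' ∈ 𝒟, D ≠ D' → Disjoint D D') →
    ∑ D ∈ 𝒟, en D ≤ En) →
  (∀ D : Finset X.F, X.DConn D → D.card ≤ m0 →
    D.card ≤ Cs * ({ε | X.cut (D : Set X.F) ε}.ncard + en D)) →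
  Nat.card X.F + C1 * (Nat.card X.V + Nat.card X.F) ≤
    C1 * (Nat.card X.Ed + X.ncomp Set.univ) + C2 * En

/-- The boundary of a union of thick components is an abstract surface. -/
def InstS : Prop := ∀ (B : Type) [MulAction W B], Loc B → ∀ (Y : PS B) (U : Set Y.Om), Y.State →
  Y.Shut U → ∃ (X : Surf) (e : X.F ↪ Y.Om × S), X.OK ∧
    (∀ a, (e a).1 ∈ U ∧ Y.Free (e a).1 (e a).2) ∧ Nat.card X.F = Y.nF U ∧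
    Nat.card X.V = Y.nV U ∧ 2 * Nat.card X.Ed = 5 * Y.nF U ∧ X.ncomp Set.univ = Y.nB U ∧
    (∀ a b, X.DAdj a b → Y.BAdj (e a) (e b)) ∧
    ∀ D : Finset X.F, {ε | X.cut (D : Set X.F) ε}.ncard = (Y.bd (Y.ch1 (D.map e))).support.card

def TIneqS : Prop := ∃ C1 : ℕ, ∀ H : ℕ, ∃ C2 C ρ : ℕ, ∀ (B : Type) [MulAction W B] [Finite B]
  (o : B), Trans o → Thick o ρ → Expd B H → ∀ (Y : PS B) (x0 : Y.Om) (r μ : ℕ), Y.State →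
  Y.Inv o x0 r μ → 2 * (Y.vol + C) ≤ Nat.card B → Y.Tight o x0 r C →
  ∀ U : Set Y.Om, Y.Shut U →
  2 * Y.nF U + 2 * C1 * Y.nV U ≤ 3 * C1 * Y.nF U + 2 * C1 * Y.nB U + 2 * C2 * Y.ends x0 U

def ChiLeS : Prop := ∀ (B : Type) [MulAction W B], Loc B → ∀ (Y : PS B) (U : Set Y.Om), Y.State →
  Y.Shut U → 2 * Y.nV U ≤ 3 * Y.nF U + 4 * Y.nB U

/-! ### Section 5b: the dual cube complex -/

def CoefS : Prop := ∀ (B : Type) [MulAction W B], Loc B → ∀ Y : PS B, Y.State →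
  ∀ (u : Y.Chain) x J, Clq J → Y.Full x J → Y.bd u (Y.cell x J) =
    ∑ s ∈ J, (u (Y.cell x (J.erase s)) + u (Y.cell (Y.sg s x) (J.erase s)))

def PsizeS : Prop := ∀ (B : Type) [MulAction W B], Loc B → ∀ Y : PS B, Y.State →
  ∀ J, Clq J → {x | Y.Full x J}.ncard = 2 ^ J.card * {c | ∃ x, Y.Full x J ∧ c = Y.cell x J}.ncard

def TauVS : Prop := ∀ (B : Type) [MulAction W B], Loc B → ∀ Y : PS B, Y.State →
  ∀ s t u, adj s t → adj t u → adj s u →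
  8 * Y.vol + 2 * ({x | Y.Full x {s, t}}.ncard + {x | Y.Full x {t, u}}.ncard +
      {x | Y.Full x {s, u}}.ncard) ≤
    8 * {c | ∃ x, (∃ v ∈ ({s, t, u} : Finset S), Y.Free x v) ∧ c = Y.cell x {s, t, u}}.ncard +
      4 * ({x | Y.Full x {s}}.ncard + {x | Y.Full x {t}}.ncard + {x | Y.Full x {u}}.ncard) +
      2 * {x | Y.Full x {s, t, u}}.ncard

def ChiPS : Prop := ∀ (B : Type) [MulAction W B], Loc B → ∀ Y : PS B, Y.State →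
  4 * Y.vol + 4 * Y.nC 2 + 3 * Y.area ≤ 2 * Y.nV Set.univ + 4 * Y.nC 1 + 4 * Y.nC 3

/-- Every thick component has a free side. -/
def FreeExS : Prop := ∀ (B : Type) [MulAction W B] [Finite B] (o : B), Trans o → ∀ Y : PS B,
  Y.vol < Nat.card B → ∀ x, ∃ y s n, Y.Near n x y ∧ Y.Free y s

def SurjS : Prop := ∀ (B : Type) [MulAction W B] (Y : PS B), Y.State →
  (∀ x, ∃ y s n, Y.Near n x y ∧ Y.Free y s) → Y.bb 2 = Y.nC 3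

def EulerS : Prop := ∀ (B : Type) [MulAction W B] (Y : PS B),
  Y.nC 1 = Y.zz 1 + Y.bb 1 ∧ Y.nC 2 = Y.zz 2 + Y.bb 2 ∧ Y.bb 1 ≤ Y.zz 2

def ZLowS : Prop := ∀ (B : Type) [MulAction W B] (o : B), Loc B → ∀ (Y : PS B) (x0 : Y.Om)
  (r μ : ℕ), Y.State → Y.Inv o x0 r μ → 2 * Y.zz 1 + Nat.card Y.A ≤ 2 * Y.vol + 2 * r

def ArcS : Prop := ∀ (B : Type) [MulAction W B] (o : B) (Y : PS B) (x0 : Y.Om) (r μ : ℕ),
  Y.Inv o x0 r μ → Nat.card Y.A ≤ 2 * r + 2 * Y.nK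

def CoreAS : Prop := ∀ (B : Type) [MulAction W B] (o : B), Trans o → ∀ (Y : PS B) (x0 : Y.Om),
  Y.H0 o x0 → (∀ c : Y.Coch W, Cocyc c → Cobd c) → ∀ c : Y.Coch Unit, Cocyc c →
  ∃ (η : S → B → F2) (ψ : W → F2) (φ : Y.Om → F2),
    (∀ s w, η s (w • o) = ψ w + ψ (g s * w)) ∧
    (∀ s x y, Y.e s x y → c (.edge s x y) () = η s (Y.f x) + φ x + φ y) ∧
    ∀ a w, w • o = Y.f (Y.src a) →
      c (.dart a) () = ψ w + ψ (Y.lab a * w) + φ (Y.src a) + φ (Y.src (Y.rev a))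

def CoreBS : Prop := ∀ (B : Type) [MulAction W B] (o : B), Trans o → ∀ (Y : PS B) (x0 : Y.Om),
  Y.H0 o x0 → (∀ c : Y.Coch W, Cocyc c → Cobd c) →
  ∀ (z : S → S → B → F2) (c : S → Y.Om → Y.Om → F2),
  (∀ s t b, adj s t → z s t b = z t s b) → (∀ s t b, adj s t → z s t (g s • b) = z s t b) →
  (∀ s t u b, adj s t → adj t u → adj s u →
    z s t b + z s t (g u • b) + z t u b + z t u (g s • b) + z s u b + z s u (g t • b) = 0) →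
  (∀ s x y, Y.e s x y → c s y x = c s x y) →
  (∀ s t x0 x1 x2 x3, adj s t → Y.e s x0 x1 → Y.e t x1 x2 → Y.e s x2 x3 → Y.e t x3 x0 →
    c s x0 x1 + c t x1 x2 + c s x2 x3 + c t x3 x0 = z s t (Y.f x0)) →
  ∃ η : S → B → F2, (∀ s b, η s (g s • b) = η s b) ∧
    ∀ s t b, adj s t → z s t b = η s b + η s (g t • b) + η t b + η t (g s • b)

def EndAS : Prop := ∀ (B : Type) [MulAction W B] [Finite B] (o : B), Trans o → Loc B →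
  ∀ (Y : PS B) (x0 : Y.Om), Y.State → Y.H0 o x0 → (∀ c : Y.Coch W, Cocyc c → Cobd c) →
  2 * Y.zz 1 + Nat.card Y.A + 2 * Nat.card B ≤ 2 * Y.vol + 2 * (fullPS B).zz 1

def EndBS : Prop := ∀ (B : Type) [MulAction W B] [Finite B] (o : B), Trans o → Loc B →
  ∀ (Y : PS B) (x0 : Y.Om), Y.State → Y.H0 o x0 → (∀ c : Y.Coch W, Cocyc c → Cobd c) →
  (fullPS B).zz 2 + Y.bb 1 ≤ Y.zz 2 + (fullPS B).bb 1

def EndMS : Prop := ∀ (B : Type) [MulAction W B] [Finite B] [Nonempty B], Loc B →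
  (fullPS B).bb 2 + 1 ≤ (fullPS B).nC 3 ∧
    Nat.card B + (fullPS B).nC 2 = (fullPS B).nC 1 + (fullPS B).nC 3

/-! ### Section 5c: tight states -/

def AddS : Prop := ∀ (B : Type) [MulAction W B] (Y : PS B) (x0 : Y.Om) (U : Set Y.Om), Y.Shut U →
  Y.nF Set.univ = Y.area ∧ Y.nF U + Y.nF Uᶜ = Y.area ∧ Y.nV Set.univ ≤ Y.nV U + Y.nV Uᶜ ∧
  Y.nB Set.univ ≤ Y.nB U + Y.nB Uᶜ ∧ Y.deg U + Y.deg Uᶜ = Nat.card Y.A ∧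
  Y.ends x0 U ≤ Y.deg U + 1 ∧ Y.ends x0 Set.univ ≤ Nat.card Y.A + 1

def StructS : Prop := ∀ S0 : ℕ, ∃ ρ : ℕ, ∀ (B : Type) [MulAction W B] [Finite B] (o : B),
  Trans o → Thick o ρ → ∀ (Y : PS B) (x0 : Y.Om) (r μ : ℕ), Y.State → Y.Inv o x0 r μ →
  Y.vol < Nat.card B → Y.Tight o x0 r 1 →
  ∃ (U : Set Y.Om) (kb : ℕ), Y.Shut U ∧ Y.nB U ≤ kb ∧ 3 * kb ≤ Y.deg U + 3 ∧
    2 * kb ≤ Y.deg U + 1 ∧ S0 * Y.nB Uᶜ ≤ Y.nF Uᶜ ∧ Y.nK ≤ kb + Y.nB Uᶜ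

def AreaS : Prop := ∀ H : ℕ, ∃ A C ρ : ℕ, ∀ (B : Type) [MulAction W B] [Finite B] (o : B),
  Trans o → Thick o ρ → Expd B H → ∀ (Y : PS B) (x0 : Y.Om) (r μ : ℕ), Y.State →
  Y.Inv o x0 r μ → 2 * (Y.vol + C) ≤ Nat.card B → Y.Tight o x0 r C → Y.area ≤ A * (r + 1)

def NoEndS : Prop := ∀ H : ℕ, ∃ C ρ : ℕ, ∀ (B : Type) [MulAction W B] [Finite B] (o : B),
  Trans o → Thick o ρ → Expd B H → ∀ (Y : PS B) (x0 : Y.Om) (r : ℕ), Y.State →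
  Y.InvL o x0 r [] → 2 * (Y.vol + C) ≤ Nat.card B → ¬ Y.Tight o x0 r C

def MainS : Prop := ∀ H : ℕ, ∃ A ρ : ℕ, ∀ (B : Type) [MulAction W B] [Finite B] (o : B),
  Trans o → Thick o ρ → Expd B H → ∀ T : Finset W,
  Subgroup.closure (T : Set W) = MulAction.stabilizer W o → Nat.card B ≤ A * (T.card + 1)

end Pool.Agent.MP_df844f_gt
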