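import Pool.Agent.MP_df844f_gt.Spec

/-! Strengthened forms of three statements: the volume is controlled in the gain case. -/

namespace Pool.Agent.MP_df844f_gt

open PS

def Wedge2S : Prop := ∀ (B : Type) [MulAction W B] (o : B) (Y : PS B) (J : Type) [Fintype J]
  (z : J → Y.Om) (w : J → W) (K : J → Finset W) (s0 : S),
  (∀ j, w j • o = Y.f (z j)) → (∀ j, Cvx (K j : Set W)) → (∀ j, w j ∈ K j) →
  ∀ h : ∀ j, g s0 * w j ∈ K j,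
  ∃ (Y' : PS B) (φ : Hom Y Y') (ι : ∀ j, EHom (cvxPS (K j)) Y'),
    φ.Good ∧ φ.Ctl (∑ j, (K j).card) ∧ φ.new ≤ ∑ j, (K j).card ∧
    (∀ j k, Y'.f ((ι j).π k) = k.1 • o) ∧
    ∀ j, Y'.e s0 (φ.π (z j)) ((ι j).π ⟨g s0 * w j, h j⟩)

def Cap2S : Prop := ∃ CK : ℕ, ∀ m0 : ℕ, ∃ ρ : ℕ, ∀ (B : Type) [MulAction W B] (o : B), Trans o →
  Thick o ρ → ∀ (Y : PS B) (D : Finset (Y.Om × S)) (p0 : Y.Om × S), Y.State → Y.BConn D →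
  p0 ∈ D → D.card ≤ m0 →
  ∃ (Y' : PS B) (φ : Hom Y Y') (κ : ℕ) (E : Y'.Chain), Y'.State ∧ φ.Good ∧ φ.Ctl κ ∧
    φ.new ≤ κ ∧ κ ≤ CK * (Y.bd (Y.ch1 D)).support.card ∧ E.support.card ≤ 12 * κ ∧
    Y'.bd (φ.push (Y.ch1 D) + E) = 0 ∧
    ∀ c ∈ (φ.push (Y.ch1 D) + E).support, ∃ x s, c = Y'.cell x {s} ∧
      Y'.Near (2 * m0 + κ) (φ.π p0.1) x

/-- The sweep stops at the first time the area falls below `a`. -/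
def Sweep2S : Prop := ∀ (B : Type) [MulAction W B] (o : B) (R : ℕ), Thick o (2 * R + 20) →
  ∀ (Y : PS B) (x0 : Y.Om) (w0 : W) (m n a : ℕ) (u : Y.Chain), Y.State → w0 • o = Y.f x0 →
  n + m ≤ R → u.support.card ≤ m → a ≤ Y.area →
  (∀ c ∈ u.support, ∃ x s, c = Y.cell x {s} ∧ Y.Near n x0 x) → Y.bd u = 0 →
  ∃ (Y' : PS B) (φ : Hom Y Y'), Y'.State ∧ φ.Good ∧ φ.Ctl 0 ∧
    ((Y'.area < a ∧ φ.new + a ≤ Y.area + 1) ∨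
      (a ≤ Y'.area ∧ ∃ Z : Finset Y'.Om, Y'.bd (Y'.ch0 Z) = φ.push u ∧ Z.card ≤ m ∧
        ∀ z ∈ Z, Y'.Near (n + m) (φ.π x0) z))

end Pool.Agent.MP_df844f_gt
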