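import Pool.Agent.MP_df844f_gt.StB

/-! Statements about the icosahedron graph, the median geometry of `W` and gadgets. -/

namespace Pool.Agent.MP_df844f_gt

open PS

/-- Finite facts on the icosahedron graph. -/
structure FactS : Prop where
  clq : ∀ J : Finset S, Clq J → J.card ≤ 3
  nosq : ∀ s t u v : S, adj s t → adj t u → adj u v → adj v s → s ≠ u → t ≠ v → adj s u ∨ adj t v
  deg : ∀ s : S, (Finset.univ.filter fun t => adj s t).card = 5
  two : ∀ s t : S, adj s t → ∃ u v, u ≠ v ∧ ∀ x, (adj s x ∧ adj t x) ↔ (x = u ∨ x = v)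
  n2 : (Finset.univ.filter fun J : Finset S => J.card = 2 ∧ Clq J).card = 30
  n3 : (Finset.univ.filter fun J : Finset S => J.card = 3 ∧ Clq J).card = 20
  conn : ∀ J : Finset S, Clq J → ∀ s ∉ J, ∀ t ∉ J,
    Relation.ReflTransGen (fun a b => a ∉ J ∧ b ∉ J ∧ adj a b) s t
  h1 : ∀ J : Finset S, Clq J → ∀ c : S → S → F2, (∀ s t, c s t = c t s) →
    (∀ s ∉ J, ∀ t ∉ J, ∀ u ∉ J, adj s t → adj t u → adj s u → c s t + c t u + c s u = 0) →
    ∃ φ : S → F2, ∀ s ∉ J, ∀ t ∉ J, adj s t → c s t = φ s + φ t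
  tri : ∀ J J' : Finset S, J.card = 3 → Clq J → J'.card = 3 → Clq J' → Relation.ReflTransGen
    (fun a b : Finset S => a.card = 3 ∧ Clq a ∧ b.card = 3 ∧ Clq b ∧ (a ∩ b).card = 2) J J'
  pent : ∀ s t u : S, adj s t → adj s u → ∃ v, adj s v ∧ (t = v ∨ adj t v) ∧ (v = u ∨ adj v u)

/-- No four pairwise crossing walls. -/
def T4S : Prop := ∀ C : Finset W, (∀ r ∈ C, ∀ q ∈ C, r ≠ q → Cross r q) → C.card ≤ 3

/-- No `K_{4,4}` in the crossing graph. -/
def K44S : Prop :=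
  ∀ C C' : Finset W, 4 ≤ C.card → 4 ≤ C'.card → ¬ ∀ r ∈ C, ∀ q ∈ C', Cross r q

def BallS : Prop := ∀ (c : W) (R : ℕ), ∃ F : Finset W, F.card ≤ 13 ^ R ∧ ∀ x, x ∈ F ↔ d c x ≤ R

def HullS : Prop := ∀ F : Finset W, F.Nonempty →
  ∃ K : Finset W, (K : Set W) = hull F ∧ K.card ≤ 1 + 13 ^ 6 * (sepW F).card

def CloseDS : Prop := ∀ x y, Close x y → d x y ≤ 27

/-- One point shadow property. -/
def SP1S : Prop := ∀ a u b a' b' m, Btw a u b → Close a a' → Close b b' → IsMed a' b' u m →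
  Close u m

def DehnS : Prop := ∀ (o x y z : W) (c : ℕ), Btw x y z → d o x ≤ d o y + c → d o z ≤ d o y + c →
  d x y ≤ 6 + c ∨ d y z ≤ 6 + c

/-- First cohomology of a convex set. -/
def H1S : Prop := ∀ K : Set W, Cvx K → ∀ c : S → W → F2,
  (∀ s x, x ∈ K → g s * x ∈ K → c s (g s * x) = c s x) →
  (∀ s t x, adj s t → x ∈ K → g s * x ∈ K → g t * x ∈ K → g s * (g t * x) ∈ K →
    c s x + c s (g t * x) + c t x + c t (g s * x) = 0) →
  ∃ φ : W → F2, ∀ s x, x ∈ K → g s * x ∈ K → c s x = φ x + φ (g s * x)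

/-- Second cohomology of `W`. -/
def H2S : Prop := ∀ z : S → S → W → F2,
  (∀ s t x, adj s t → z s t x = z t s x) → (∀ s t x, adj s t → z s t (g s * x) = z s t x) →
  (∀ s t u x, adj s t → adj t u → adj s u →
    z s t x + z s t (g u * x) + z t u x + z t u (g s * x) + z s u x + z s u (g t * x) = 0) →
  ∃ η : S → W → F2, (∀ s x, η s (g s * x) = η s x) ∧
    ∀ s t x, adj s t → z s t x = η s x + η s (g t * x) + η t x + η t (g s * x)

/-- Cycles of rank 2 cells in a convex set bound chains of faces. -/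
def FillS : Prop := ∀ K : Finset W, Cvx (K : Set W) → ∀ β : (cvxPS K).Chain,
  (∀ c ∈ β.support, ∃ x s t, adj s t ∧ c = (cvxPS K).cell x {s, t}) → (cvxPS K).bd β = 0 →
  ∃ E : (cvxPS K).Chain, (∀ c ∈ E.support, ∃ x s, c = (cvxPS K).cell x {s}) ∧ (cvxPS K).bd E = β

/-- A convex set is a gadget for each of its subsets. -/
def GCvxS : Prop := ∀ K F : Finset W, Cvx (K : Set W) → F ⊆ K → K.Nonempty →
  ∃ ι, Gadget (cvxPS K) F ι

/-- Shadows of the two cut points. -/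
def CutSP (FL FR : Finset W) (uL uR : W) : Prop :=
  ∀ a ∈ FL, ∀ b ∈ FR, ∀ a' b', Close a a' → Close b b' →
    ∃ uL' uR', Close uL uL' ∧ Close uR uR' ∧ d a' uL' + d uL' uR' + d uR' b' = d a' b'

/-- Two gadgets joined by an arc. -/
def GJoinS : Prop := ∀ (QL QR : PS W) (FL FR : Finset W) (uL uR : W) (ιL : W → QL.Om)
  (ιR : W → QR.Om), Gadget QL (insert uL FL) ιL → Gadget QR (insert uR FR) ιR →
  CutSP FL FR uL uR → (∀ a ∈ FL, ∀ b ∈ FR, 2 ≤ d a b) →
  ∃ (Q : PS W) (ι : W → Q.Om), Gadget Q (FL ∪ FR) ι ∧ Q.vol = QL.vol + QR.vol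

/-- The partition of `F` induced by a wall. -/
noncomputable def ty (F : Finset W) (r : W) : Finset (W × W) :=
  (F ×ˢ F).filter fun p => r ∈ Sep p.1 p.2

/-- The class of a wall. -/
noncomputable def cls (F : Finset W) (r : W) : Finset W :=
  (sepW F).filter fun q => ty F q = ty F r

noncomputable def tau (F : Finset W) : ℕ :=
  ∑ t ∈ (sepW F).image (ty F), min 140 ((sepW F).filter fun q => ty F q = t).card

def TauS : Prop := ∃ C : ℕ, ∀ F : Finset W, tau F ≤ C * F.card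

/-- The data of a cut along a long class. -/
structure CutD (F : Finset W) (r a0 b0 uL uR : W) : Prop where
  long : 140 ≤ (cls F r).card
  ha : a0 ∈ F
  hb : b0 ∈ F
  ra : r ∉ N a0
  rb : r ∈ N b0
  bL : Btw a0 uL b0
  bR : Btw uL uR b0
  cL : (cls F r ∩ Sep a0 uL).card = 58
  cR : (cls F r ∩ Sep uR b0).card = 58

def CutExS : Prop := ∀ F r, r ∈ sepW F → 140 ≤ (cls F r).card → ∃ a0 b0 uL uR, CutD F r a0 b0 uL uR

def CutSPS : Prop := ∀ F r a0 b0 uL uR, CutD F r a0 b0 uL uR →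
  CutSP (F.filter fun a => r ∉ N a) (F.filter fun a => r ∈ N a) uL uR ∧
    ∀ a ∈ F.filter fun a => r ∉ N a, ∀ b ∈ F.filter fun a => r ∈ N a, 2 ≤ d a b

def CutTauS : Prop := ∀ F r a0 b0 uL uR, CutD F r a0 b0 uL uR →
  tau (insert uL (F.filter fun a => r ∉ N a)) + tau (insert uR (F.filter fun a => r ∈ N a)) + 1 ≤
    tau F

/-- The Q-lemma. -/
def QS : Prop := ∃ C : ℕ, ∀ F : Finset W, F.Nonempty →
  ∃ (Q : PS W) (ι : W → Q.Om), Gadget Q F ι ∧ Q.vol ≤ C * F.card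

end Pool.Agent.MP_df844f_gt
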