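import Pool.Agent.MP_df844f_gt.Med

/-! Prestates, cochains, tracked walks, moves, cells. -/

namespace Pool.Agent.MP_df844f_gt

abbrev F2 := ZMod 2

/-- A prestate over the `W`-set `B`: finitely many chambers with thick edges, and arcs given by
darts. -/
structure PS (B : Type) [MulAction W B] : Type 1 where
  Om : Type
  A : Type
  [finO : Finite Om]
  [finA : Finite A]
  f : Om → B
  e : S → Om → Om → Prop
  e_symm : ∀ {s x y}, e s x y → e s y x
  e_f : ∀ {s x y}, e s x y → f y = g s • f x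
  rev : A → A
  rev_rev : ∀ a, rev (rev a) = a
  rev_ne : ∀ a, rev a ≠ a
  src : A → Om
  lab : A → W
  lab_rev : ∀ a, lab (rev a) = (lab a)⁻¹
  f_rev : ∀ a, f (src (rev a)) = lab a • f (src a)

attribute [instance] PS.finO PS.finA

/-- Large injectivity radius at the base point `o`. -/
def Thick {B : Type} [MulAction W B] (o : B) (ρ : ℕ) : Prop :=
  ∀ w w' : W, w • o = w' • o → d w w' ≤ ρ → w = w'

/-- Transitivity. -/
def Trans {B : Type} [MulAction W B] (o : B) : Prop := ∀ b : B, ∃ w : W, w • o = b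

/-- Expansion with Cheeger constant at least `1 / H`. -/
def Expd (B : Type) [MulAction W B] (H : ℕ) : Prop :=
  ∀ U : Set B, 2 * U.ncard ≤ Nat.card B →
    U.ncard ≤ H * {p : B × S | p.1 ∈ U ∧ g p.2 • p.1 ∉ U}.ncard

namespace PS

variable {B : Type} [MulAction W B] (Y : PS B)

/-- Folded and square closed prestates. -/
structure State : Prop where
  fold : ∀ {s x y y'}, Y.e s x y → Y.e s x y' → y = y'
  close : ∀ {s t x0 x1 x2 x3}, adj s t → Y.e s x0 x1 → Y.e t x1 x2 → Y.e s x2 x3 → Y.e t x3 x0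

/-- The side `s` of the chamber `x` is free. -/
def Free (x : Y.Om) (s : S) : Prop := ¬ ∃ y, Y.e s x y

noncomputable def area : ℕ := {p : Y.Om × S | Y.Free p.1 p.2}.ncard
noncomputable def vol : ℕ := Nat.card Y.Om
noncomputable def pot : ℕ := Y.vol + Y.area

open Classical in
/-- The `s`-neighbour of `x`, or `x` itself if the side is free. -/
noncomputable def sg (s : S) (x : Y.Om) : Y.Om :=
  if h : ∃ y, Y.e s x y then Classical.choose h else x

/-- Thick paths of length at most `n`. -/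
inductive Near : ℕ → Y.Om → Y.Om → Prop
  | refl (n x) : Near n x x
  | step {n s x y z} : Y.e s x y → Near n y z → Near (n + 1) x z

/-- Sets of chambers closed under thick edges. -/
def Shut (U : Set Y.Om) : Prop := ∀ s x y, Y.e s x y → x ∈ U → y ∈ U

/-- Labels of steps. -/
inductive Lbl : Type
  | edge (s : S) (x y : Y.Om)
  | dart (a : Y.A)

/-- Cochains on `Y × E`. -/
abbrev Coch (E : Type) := Y.Lbl → E → F2

/-- Lists of steps with the positions at which they start. -/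
abbrev Path := List (Y.Lbl × W)

variable {Y}

structure Cocyc {E : Type} [MulAction W E] (c : Y.Coch E) : Prop where
  symm : ∀ s x y ε, Y.e s x y → c (.edge s y x) (g s • ε) = c (.edge s x y) ε
  dsym : ∀ a ε, c (.dart (Y.rev a)) (Y.lab a • ε) = c (.dart a) ε
  sq : ∀ s t x0 x1 x2 x3 ε, adj s t → Y.e s x0 x1 → Y.e t x1 x2 → Y.e s x2 x3 → Y.e t x3 x0 →
    c (.edge s x0 x1) ε + c (.edge t x1 x2) (g s • ε) + c (.edge s x2 x3) (g t • g s • ε) +
      c (.edge t x3 x0) (g s • g t • g s • ε) = 0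

structure IsD {E : Type} [MulAction W E] (c : Y.Coch E) (φ : Y.Om → E → F2) : Prop where
  ed : ∀ s x y ε, Y.e s x y → c (.edge s x y) ε = φ x ε + φ y (g s • ε)
  da : ∀ a ε, c (.dart a) ε = φ (Y.src a) ε + φ (Y.src (Y.rev a)) (Y.lab a • ε)

def Cobd {E : Type} [MulAction W E] (c : Y.Coch E) : Prop := ∃ φ, IsD c φ

/-- Value of a cochain on a path whose position `1` lies over `ε`. -/
def ev {E : Type} [MulAction W E] (c : Y.Coch E) (ch : Y.Path) (ε : E) : F2 :=
  (ch.map fun lw => c lw.1 (lw.2 • ε)).sum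

/-- Locally constant functions upstairs. -/
structure LocC {T : Type} (φ : Y.Om → W → T) : Prop where
  ed : ∀ s x y w, Y.e s x y → φ y (g s * w) = φ x w
  da : ∀ a w, φ (Y.src (Y.rev a)) (Y.lab a * w) = φ (Y.src a) w

variable (Y)

/-- The pull-back of `Y` to `W` is connected, with base chamber `x0` over `o`. -/
def H0 (o : B) (x0 : Y.Om) : Prop :=
  Y.f x0 = o ∧ ∀ (T : Type) (φ : Y.Om → W → T), LocC φ → ∀ x w, w • o = Y.f x → φ x w = φ x0 1

/-- `Y` is connected. -/
def Conn : Prop :=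
  ∀ (T : Type) (ψ : Y.Om → T), (∀ s x y, Y.e s x y → ψ x = ψ y) →
    (∀ a, ψ (Y.src a) = ψ (Y.src (Y.rev a))) → ∀ x y, ψ x = ψ y

/-- Node of a tracked walk: chamber, position, shadow. -/
structure Node : Type where
  x : Y.Om
  w : W
  p : W

/-- Tracked walks; `P` is a condition on positions and shadows of all nodes. -/
inductive TW (P : W → W → Prop) : Y.Node → Y.Node → ℕ → Y.Path → Prop
  | nil (n : Y.Node) : Close n.w n.p → P n.w n.p → TW P n n 0 []
  | edge {n n' m : Y.Node} {l : ℕ} {ch : Y.Path} (s : S) : Close n.w n.p → P n.w n.p →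
      Y.e s n.x n'.x → n'.w = g s * n.w → TW P n' m l ch →
      TW P n m (d n.p n'.p + l) ((.edge s n.x n'.x, n.w) :: ch)
  | dart {n n' m : Y.Node} {l : ℕ} {ch : Y.Path} (a : Y.A) : Close n.w n.p → P n.w n.p →
      n.x = Y.src a → n'.x = Y.src (Y.rev a) → n'.w = Y.lab a * n.w → TW P n' m l ch →
      TW P n m (d n.p n'.p + l) ((.dart a, n.w) :: ch)
  | stay {n n' m : Y.Node} {l : ℕ} {ch : Y.Path} : Close n.w n.p → P n.w n.p →
      n'.x = n.x → n'.w = n.w → TW P n' m l ch → TW P n m (d n.p n'.p + l) ch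

end PS

/-- The trivial condition on nodes. -/
abbrev tt : W → W → Prop := fun _ _ => True

/-- Total measure of a list of tracked loops. -/
def meas {α : Type} (Λ : List (ℕ × α)) : ℕ := (Λ.map fun l => l.1 + 1).sum

namespace PS

variable {B : Type} [MulAction W B] (Y : PS B)

/-- The invariant with an explicit list of tracked loops. -/
structure InvL (o : B) (x0 : Y.Om) (r : ℕ) (Λ : List (ℕ × Y.Path)) : Prop where
  h0 : Y.H0 o x0
  b1 : ∃ lam : Fin r → Y.Path, (∀ i, ∃ γ l, Y.TW tt ⟨x0, 1, 1⟩ ⟨x0, γ, γ⟩ l (lam i)) ∧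
    ∀ c : Y.Coch Unit, Cocyc c → (∀ i, ev c (lam i) () = 0) → Cobd c
  loops : ∀ l ∈ Λ, Y.TW tt ⟨x0, 1, 1⟩ ⟨x0, 1, 1⟩ l.1 l.2
  rel : ∀ c : Y.Coch W, Cocyc c → (∀ l ∈ Λ, ∀ ε, ev c l.2 ε = 0) → Cobd c

def Inv (o : B) (x0 : Y.Om) (r μ : ℕ) : Prop := ∃ Λ, Y.InvL o x0 r Λ ∧ meas Λ ≤ μ

/-- No successor state with smaller area and volume at most `C` larger. -/
def Tight (o : B) (x0 : Y.Om) (r C : ℕ) : Prop :=
  ∀ (Y' : PS B) (x0' : Y'.Om), Y'.State → (∀ μ, Y.Inv o x0 r μ → Y'.Inv o x0' r μ) →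
    Y'.vol ≤ Y.vol + C → Y.area ≤ Y'.area

end PS

open PS

/-- `ch` and `ch'` have the same values under a pull-back of cochains. -/
def SameV {B : Type} [MulAction W B] {Y Y' : PS B}
    (pull : ∀ (E : Type) [MulAction W E], Y'.Coch E → Y.Coch E) (ch : Y.Path) (ch' : Y'.Path) :
    Prop :=
  ∀ (E : Type) [MulAction W E] (c : Y'.Coch E) (ε : E), Cocyc c → ev (pull E c) ch ε = ev c ch' ε

/-- A move between prestates. -/
structure Move {B : Type} [MulAction W B] (o : B) (Y Y' : PS B) : Type 1 where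
  K : Y.Om → Y'.Om → Prop
  pull : ∀ (E : Type) [MulAction W E], Y'.Coch E → Y.Coch E
  K_f : ∀ x x', K x x' → Y'.f x' = Y.f x
  cocyc : ∀ (E : Type) [MulAction W E] (c : Y'.Coch E), Cocyc c → Cocyc (pull E c)
  refl : ∀ (E : Type) [MulAction W E] (c : Y'.Coch E), Cocyc c → Cobd (pull E c) → Cobd c
  trans : ∀ (n m : Y.Node) (x' y' : Y'.Om) (l : ℕ) (ch : Y.Path), K n.x x' → K m.x y' →
    Y.TW tt n m l ch →
    ∃ l' ch', l' ≤ l ∧ Y'.TW tt ⟨x', n.w, n.p⟩ ⟨y', m.w, m.p⟩ l' ch' ∧ SameV pull ch ch'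
  h0 : ∀ x x', K x x' → Y.H0 o x → Y'.H0 o x'

/-- Maps of chambers preserving thick edges. -/
structure EHom {B B' : Type} [MulAction W B] [MulAction W B'] (Y : PS B) (Y' : PS B') : Type where
  π : Y.Om → Y'.Om
  e_π : ∀ {s x y}, Y.e s x y → Y'.e s (π x) (π y)

/-- Morphisms of prestates over the same base, bijective on darts. -/
structure Hom {B : Type} [MulAction W B] (Y Y' : PS B) : Type extends EHom Y Y' where
  α : Y.A ≃ Y'.A
  f_π : ∀ x, Y'.f (π x) = Y.f x
  src_α : ∀ a, Y'.src (α a) = π (Y.src a)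
  rev_α : ∀ a, Y'.rev (α a) = α (Y.rev a)
  lab_α : ∀ a, Y'.lab (α a) = Y.lab a

def EHom.comp {B B' B'' : Type} [MulAction W B] [MulAction W B'] [MulAction W B''] {Y : PS B}
    {Y' : PS B'} {Y'' : PS B''} (φ : EHom Y Y') (ψ : EHom Y' Y'') : EHom Y Y'' :=
  ⟨fun x => ψ.π (φ.π x), fun h => ψ.e_π (φ.e_π h)⟩

namespace Hom

variable {B : Type} [MulAction W B] {Y Y' Y'' : PS B}

def id (Y : PS B) : Hom Y Y where
  π x := x
  e_π h := h
  α := Equiv.refl _
  f_π _ := rfl
  src_α _ := rfl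
  rev_α _ := rfl
  lab_α _ := rfl

def comp (φ : Hom Y Y') (ψ : Hom Y' Y'') : Hom Y Y'' where
  toEHom := φ.toEHom.comp ψ.toEHom
  α := φ.α.trans ψ.α
  f_π x := (ψ.f_π _).trans (φ.f_π x)
  src_α a := (ψ.src_α _).trans (congrArg ψ.π (φ.src_α a))
  rev_α a := (ψ.rev_α _).trans (congrArg ψ.α (φ.rev_α a))
  lab_α a := (ψ.lab_α _).trans (φ.lab_α a)

def lbl (φ : Hom Y Y') : Y.Lbl → Y'.Lbl
  | .edge s x y => .edge s (φ.π x) (φ.π y)
  | .dart a => .dart (φ.α a)

/-- Pull-back reflects coboundaries and connectedness is kept. -/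
structure Good (φ : Hom Y Y') : Prop where
  refl : ∀ (E : Type) [MulAction W E] (c : Y'.Coch E), Cocyc c →
    Cobd (fun l => c (φ.lbl l) : Y.Coch E) → Cobd c
  h0 : ∀ o x, Y.H0 o x → Y'.H0 o (φ.π x)

/-- Number of chambers outside the image. -/
noncomputable def new (φ : Hom Y Y') : ℕ := {y | y ∉ Set.range φ.π}.ncard

/-- Control of area and of thick distances. -/
structure Ctl (φ : Hom Y Y') (κ : ℕ) : Prop where
  area : Y'.area + 6 * φ.new ≤ Y.area + 18 * κ
  pot : Y'.pot ≤ Y.pot + 13 * κ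
  near : ∀ n u v, Y'.Near n (φ.π u) (φ.π v) → Y.Near (n + 24 * (Y.pot + 13 * κ - Y'.pot)) u v

end Hom

/-- The full prestate on a finite set of chambers of `W`. -/
def cvxPS (K : Finset W) : PS W where
  Om := K
  A := Empty
  f x := x.1
  e s x y := y.1 = g s * x.1
  e_symm h := by rw [h, g_mul_g_mul]
  e_f h := h
  rev a := a
  rev_rev _ := rfl
  rev_ne a := a.elim
  src a := a.elim
  lab a := a.elim
  lab_rev a := a.elim
  f_rev a := a.elim

/-- The closed manifold itself. -/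
def fullPS (B : Type) [MulAction W B] [Finite B] : PS B where
  Om := B
  A := Empty
  f x := x
  e s x y := y = g s • x
  e_symm h := by rw [h, smul_smul, g_mul_self, one_smul]
  e_f h := h
  rev a := a
  rev_rev _ := rfl
  rev_ne a := a.elim
  src a := a.elim
  lab a := a.elim
  lab_rev a := a.elim
  f_rev a := a.elim

/-- A gadget for the finite set `F`. -/
structure Gadget (Q : PS W) (F : Finset W) (ι : W → Q.Om) : Prop where
  f_ι : ∀ a ∈ F, Q.f (ι a) = a
  e_ι : ∀ a ∈ F, ∀ s, g s * a ∈ F → Q.e s (ι a) (ι (g s * a))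
  h1 : ∀ c : Q.Coch Unit, Cocyc c → Cobd c
  conn : Q.Conn
  sp : ∀ a ∈ F, ∀ b ∈ F, ∀ a' b', Close a a' → Close b b' →
    ∃ ch, Q.TW tt ⟨ι a, a, a'⟩ ⟨ι b, b, b'⟩ (d a' b') ch

namespace PS

variable {B : Type} [MulAction W B] (Y : PS B)

/-- One step along a thick edge with label in `J`. -/
def JE (J : Finset S) (x y : Y.Om) : Prop := ∃ s ∈ J, Y.e s x y

/-- Cells: a chamber and a set of labels `J`, up to `J`-edges. -/
def Cell : Type := Quot fun p q : Y.Om × Finset S => p.2 = q.2 ∧ Y.JE p.2 p.1 q.1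

instance : Finite Y.Cell := Quot.finite _

noncomputable instance : DecidableEq Y.Cell := Classical.decEq _

def cell (x : Y.Om) (J : Finset S) : Y.Cell := Quot.mk _ (x, J)

/-- Mod 2 chains. -/
abbrev Chain := Y.Cell →₀ F2

theorem cell_step {x y : Y.Om} {J : Finset S} (h : Y.JE J x y) : Y.cell x J = Y.cell y J :=
  Quot.sound ⟨rfl, h⟩

/-- Boundary of one cell. -/
noncomputable def bd1 : Y.Cell → Y.Chain :=
  Quot.lift
    (fun p => ∑ t ∈ Finset.univ.filter (fun t => ∀ s ∈ p.2, adj s t),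
      Finsupp.single (Y.cell p.1 (insert t p.2)) 1)
    (by
      rintro ⟨x, J⟩ ⟨y, J'⟩ ⟨h1, s, hs, h2⟩
      obtain rfl : J = J' := h1
      refine Finset.sum_congr rfl fun t _ => ?_
      rw [Y.cell_step (J := insert t J) ⟨s, Finset.mem_insert_of_mem hs, h2⟩])

/-- The boundary operator (chambers to faces to edges to vertices of the tessellation). -/
noncomputable def bd : Y.Chain →ₗ[F2] Y.Chain := Finsupp.linearCombination F2 Y.bd1

/-- The chain of a set of chambers. -/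
noncomputable def ch0 (Z : Finset Y.Om) : Y.Chain := ∑ x ∈ Z, Finsupp.single (Y.cell x ∅) 1

/-- The chain of a set of sides. -/
noncomputable def ch1 (D : Finset (Y.Om × S)) : Y.Chain :=
  ∑ p ∈ D, Finsupp.single (Y.cell p.1 {p.2}) 1

/-- No chamber of the `J`-orbit of `x` has a free side in `J`. -/
def Full (x : Y.Om) (J : Finset S) : Prop :=
  ∀ y, Y.cell y J = Y.cell x J → ∀ s ∈ J, ¬ Y.Free y s

/-- Full cells of rank `k` (the `k`-cubes of the dual cube complex). -/
def FC (k : ℕ) : Set Y.Cell := {c | ∃ x J, J.card = k ∧ Clq J ∧ Y.Full x J ∧ c = Y.cell x J}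

noncomputable def nC (k : ℕ) : ℕ := (Y.FC k).ncard

/-- Cochains of the dual cube complex. -/
def Ck (k : ℕ) : Submodule F2 Y.Chain := Finsupp.supported F2 F2 (Y.FC k)

open Classical in
/-- The coboundary into degree `k` of the dual cube complex. -/
noncomputable def dl (k : ℕ) : Y.Chain →ₗ[F2] Y.Chain :=
  (Y.Ck k).subtype ∘ₗ Finsupp.restrictDom F2 F2 (Y.FC k) ∘ₗ Y.bd

/-- Dimension of the cocycles in degree `k`. -/
noncomputable def zz (k : ℕ) : ℕ :=
  Module.finrank F2 (Y.Ck k ⊓ LinearMap.ker (Y.dl (k + 1)) : Submodule F2 Y.Chain)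

/-- Dimension of the coboundaries in degree `k + 1`. -/
noncomputable def bb (k : ℕ) : ℕ :=
  Module.finrank F2 ((Y.Ck k).map (Y.dl (k + 1)) : Submodule F2 Y.Chain)

/-- Two free sides that share an edge of the tessellation. -/
def BAdj (p q : Y.Om × S) : Prop :=
  Y.Free p.1 p.2 ∧ Y.Free q.1 q.2 ∧
    ∃ t t', adj p.2 t ∧ adj q.2 t' ∧ Y.cell p.1 {p.2, t} = Y.cell q.1 {q.2, t'}

/-- Connected sets of free sides. -/
def BConn (D : Finset (Y.Om × S)) : Prop :=
  (∀ p ∈ D, Y.Free p.1 p.2) ∧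
    ∀ p ∈ D, ∀ q ∈ D, Relation.ReflTransGen (fun a b => a ∈ D ∧ b ∈ D ∧ Y.BAdj a b) p q

/-- Ends: sources of darts and the base chamber. -/
def esrc (x0 : Y.Om) : Option Y.A → Y.Om
  | none => x0
  | some a => Y.src a

noncomputable def ends (x0 : Y.Om) (U : Set Y.Om) : ℕ := {a | Y.esrc x0 a ∈ U}.ncard

/-- Ends within thick distance `R` of `D`. -/
noncomputable def endsN (x0 : Y.Om) (R : ℕ) (D : Finset (Y.Om × S)) : ℕ :=
  Y.ends x0 {x | ∃ p ∈ D, Y.Near R p.1 x}

noncomputable def deg (U : Set Y.Om) : ℕ := {a | Y.src a ∈ U}.ncard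

/-- Free sides in `U`. -/
noncomputable def nF (U : Set Y.Om) : ℕ := {p : Y.Om × S | p.1 ∈ U ∧ Y.Free p.1 p.2}.ncard

/-- Rank 3 cells in `U` that are not full. -/
noncomputable def nV (U : Set Y.Om) : ℕ :=
  {c | ∃ x ∈ U, ∃ J : Finset S, J.card = 3 ∧ Clq J ∧ (∃ s ∈ J, Y.Free x s) ∧
    c = Y.cell x J}.ncard

/-- Number of boundary components in `U`. -/
noncomputable def nB (U : Set Y.Om) : ℕ :=
  Nat.card (Quot fun p q : {p : Y.Om × S // p.1 ∈ U ∧ Y.Free p.1 p.2} => Y.BAdj p.1 q.1)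

/-- Number of thick components. -/
noncomputable def nK : ℕ := {c | ∃ x, c = Y.cell x Finset.univ}.ncard

/-- Sides of `Z` glued to the outside. -/
noncomputable def front (Z : Set Y.Om) : ℕ :=
  {p : Y.Om × S | p.1 ∈ Z ∧ ∃ y, y ∉ Z ∧ Y.e p.2 p.1 y}.ncard

/-- A thick component with a consistent lift to `W`. -/
structure Bead (o : B) (Z : Set Y.Om) (pos : Y.Om → W) : Prop where
  shut : Y.Shut Z
  pos_f : ∀ z ∈ Z, pos z • o = Y.f z
  pos_e : ∀ s, ∀ z ∈ Z, ∀ z', Y.e s z z' → pos z' = g s * pos z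
  conn : ∀ z ∈ Z, ∀ z' ∈ Z, ∃ n, Y.Near n z z'

/-- Data for attaching a new chamber over `b` along all sides outside the clique `J`. -/
structure Att (J : Finset S) (y : S → Y.Om) (b : B) : Prop where
  clq : Clq J
  f_y : ∀ t ∉ J, Y.f (y t) = g t • b
  free : ∀ t ∉ J, Y.Free (y t) t
  link : ∀ t ∉ J, ∀ u ∉ J, Relation.ReflTransGen
    (fun a c => a ∉ J ∧ c ∉ J ∧ adj a c ∧ ∃ q, Y.e c (y a) q ∧ Y.e a (y c) q) t u
  near : ∀ t ∉ J, ∀ u ∉ J, Y.Near 24 (y t) (y u)

end PS

namespace EHom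

variable {B B' : Type} [MulAction W B] [MulAction W B'] {Y : PS B} {Y' : PS B'}

def cmap (φ : EHom Y Y') : Y.Cell → Y'.Cell :=
  Quot.map (fun p => (φ.π p.1, p.2)) (by
    rintro ⟨x, J⟩ ⟨y, J'⟩ ⟨h1, s, hs, h2⟩
    exact ⟨h1, s, hs, φ.e_π h2⟩)

/-- Push-forward of chains. -/
noncomputable def push (φ : EHom Y Y') : Y.Chain →ₗ[F2] Y'.Chain :=
  Finsupp.lmapDomain F2 F2 φ.cmap

end EHom

/-- Data for replacing a family of connected liftable pieces by gadgets. -/
structure HData {B : Type} [MulAction W B] (o : B) (Y : PS B) : Type 1 where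
  J : Type
  [finJ : Fintype J]
  comp : Y.Om → Option J
  pos : Y.Om → W
  int : Y.A → Prop
  Q : J → PS W
  F : J → Finset W
  ι : ∀ j, W → (Q j).Om
  pos_f : ∀ z j, comp z = some j → pos z • o = Y.f z
  e_in : ∀ s z z' j j', Y.e s z z' → comp z = some j → comp z' = some j' →
    j = j' ∧ pos z' = g s * pos z
  int_rev : ∀ a, int a → int (Y.rev a)
  int_in : ∀ a, int a → ∃ j, comp (Y.src a) = some j ∧ comp (Y.src (Y.rev a)) = some j ∧
    pos (Y.src (Y.rev a)) = Y.lab a * pos (Y.src a)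
  conn : ∀ j, ∃ z0, comp z0 = some j ∧ ∀ z, comp z = some j → Relation.ReflTransGen
    (fun u v => comp u = some j ∧ comp v = some j ∧
      ((∃ s, Y.e s u v) ∨ ∃ a, int a ∧ u = Y.src a ∧ v = Y.src (Y.rev a))) z0 z
  gad : ∀ j, Gadget (Q j) (F j) (ι j)
  kept_near : ∀ z y j, comp z = some j → comp y = none → Y.Near 2 z y → pos z ∈ F j
  kept_src : ∀ a j, ¬ int a → comp (Y.src a) = some j → pos (Y.src a) ∈ F j

attribute [instance] HData.finJ

namespace HData

variable {B : Type} [MulAction W B] {o : B} {Y : PS B} (D : HData o Y)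

/-- Chambers that survive. -/
def Kept (x : Y.Om) : Prop := ∀ j, D.comp x = some j → D.pos x ∈ D.F j

/-- Steps inside the pieces. -/
def Int : Y.Lbl → Prop
  | .edge _ x y => D.comp x ≠ none ∧ D.comp y ≠ none
  | .dart a => D.int a

end HData

end Pool.Agent.MP_df844f_gt
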