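import Pool.Agent.MP_df844f_gt.St

namespace Pool.Agent.MP_df844f_gt

theorem F2_add_self (a : F2) : a + a = 0 := by revert a; decide

theorem Cross.symm {r q : W} (h : Cross r q) : Cross q r := by
  obtain ⟨⟨a, ha⟩, ⟨b, hb⟩, ⟨c, hc⟩, ⟨e, he⟩⟩ := h
  exact ⟨⟨a, ha.2, ha.1⟩, ⟨c, hc.2, hc.1⟩, ⟨b, hb.2, hb.1⟩, ⟨e, he.2, he.1⟩⟩

theorem not_cross_self (r : W) : ¬ Cross r r := fun h => by
  obtain ⟨_, ⟨b, hb⟩, _⟩ := h
  exact hb.2 hb.1

/-- Crossing from four points: `r` separates `a, b` from `c, e` and `q` separates `a, c` from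
`b, e`. -/
theorem cross_of_four {r q a b c e : W} (h1 : r ∉ Sep a b) (h2 : r ∉ Sep c e) (h3 : r ∈ Sep a c)
    (h4 : q ∉ Sep a c) (h5 : q ∉ Sep b e) (h6 : q ∈ Sep a b) : Cross r q := by
  simp only [mem_Sep, not_not] at h1 h2 h3 h4 h5 h6
  by_cases x : r ∈ N a <;> by_cases y : q ∈ N a
  · exact ⟨⟨a, by tauto⟩, ⟨b, by tauto⟩, ⟨c, by tauto⟩, ⟨e, by tauto⟩⟩
  · exact ⟨⟨b, by tauto⟩, ⟨a, by tauto⟩, ⟨e, by tauto⟩, ⟨c, by tauto⟩⟩
  · exact ⟨⟨c, by tauto⟩, ⟨e, by tauto⟩, ⟨a, by tauto⟩, ⟨b, by tauto⟩⟩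
  · exact ⟨⟨e, by tauto⟩, ⟨c, by tauto⟩, ⟨b, by tauto⟩, ⟨a, by tauto⟩⟩

theorem Cross.four {r q : W} (h : Cross r q) : ∃ a b c e, r ∉ Sep a b ∧ r ∉ Sep c e ∧
    r ∈ Sep a c ∧ q ∉ Sep a c ∧ q ∉ Sep b e ∧ q ∈ Sep a b := by
  obtain ⟨⟨a, ha⟩, ⟨b, hb⟩, ⟨c, hc⟩, ⟨e, he⟩⟩ := h
  refine ⟨a, b, c, e, ?_⟩
  simp only [mem_Sep]; tauto

theorem cross_conj {r q : W} (c : W) (h : Cross (c * r * c⁻¹) (c * q * c⁻¹)) : Cross r q := by
  obtain ⟨a, b, e, f, h1, h2, h3, h4, h5, h6⟩ := h.four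
  rw [← mem_Sep_mul] at h1 h2 h3 h4 h5 h6
  exact cross_of_four h1 h2 h3 h4 h5 h6

theorem close_of_d_le {x y : W} (h : d x y ≤ 9) : Close x y := fun C hC _ =>
  (Finset.card_le_card hC).trans (by rw [card_Sep]; exact h)

theorem Close.refl (x : W) : Close x x := close_of_d_le (by rw [d_self]; omega)

theorem Close.symm {x y : W} (h : Close x y) : Close y x := fun C hC =>
  h C (by rwa [Sep_comm])

theorem Close.mul {x y : W} (h : Close x y) (c : W) : Close (x * c) (y * c) := by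
  intro C hC hn
  have hi : Function.Injective fun r : W => c * r * c⁻¹ := fun a b k => by simpa using k
  rw [← Finset.card_image_of_injective C hi]
  refine h _ ?_ ?_
  · intro r hr
    obtain ⟨q, hq, rfl⟩ := Finset.mem_image.1 hr
    exact (mem_Sep_mul x y c q).1 (hC hq)
  · intro r hr q hq k
    obtain ⟨r', hr', rfl⟩ := Finset.mem_image.1 hr
    obtain ⟨q', hq', rfl⟩ := Finset.mem_image.1 hq
    exact hn r' hr' q' hq' (cross_conj c k)

theorem IsMed.mul {x y z m : W} (h : IsMed x y z m) (c : W) :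
    IsMed (x * c) (y * c) (z * c) (m * c) := by
  intro r
  have := h (c * r * c⁻¹)
  simp only [mem_N_mul]; tauto

theorem Thick.mono {B : Type} [MulAction W B] {o : B} {ρ ρ' : ℕ} (h : Thick o ρ) (k : ρ' ≤ ρ) :
    Thick o ρ' := fun w w' a b => h w w' a (b.trans k)

theorem meas_cons {α : Type} (l : ℕ × α) (Λ : List (ℕ × α)) : meas (l :: Λ) = l.1 + 1 + meas Λ := by
  simp [meas]

namespace PS

variable {B : Type} [MulAction W B] {Y : PS B}

theorem Near.mono {n m : ℕ} {x y : Y.Om} (h : Y.Near n x y) (k : n ≤ m) : Y.Near m x y := by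
  induction h generalizing m with
  | refl n x => exact Near.refl _ _
  | step he _ ih =>
    obtain ⟨m, rfl⟩ : ∃ m', m = m' + 1 := ⟨m - 1, by omega⟩
    exact Near.step he (ih (by omega))

theorem Near.single {s : S} {x y : Y.Om} (h : Y.e s x y) : Y.Near 1 x y :=
  Near.step h (Near.refl 0 y)

theorem Near.trans {n m : ℕ} {x y z : Y.Om} (h : Y.Near n x y) (k : Y.Near m y z) :
    Y.Near (n + m) x z := by
  induction h with
  | refl n x => exact k.mono (by omega)
  | step he _ ih => rw [Nat.add_right_comm]; exact Near.step he (ih k)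

theorem Near.symm {n : ℕ} {x y : Y.Om} (h : Y.Near n x y) : Y.Near n y x := by
  induction h with
  | refl n x => exact Near.refl _ _
  | step he _ ih => exact ih.trans (Near.single (Y.e_symm he))

theorem Near.shut {n : ℕ} {x y : Y.Om} (h : Y.Near n x y) {U : Set Y.Om} (hU : Y.Shut U)
    (hx : x ∈ U) : y ∈ U := by
  induction h with
  | refl n x => exact hx
  | step he _ ih => exact ih (hU _ _ _ he hx)

/-- Chambers near a lifted chamber have a near lift. -/
theorem Near.lift {o : B} {n : ℕ} {x y : Y.Om} (h : Y.Near n x y) {w : W} (hw : w • o = Y.f x) :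
    ∃ w', w' • o = Y.f y ∧ d w w' ≤ n := by
  induction h generalizing w with
  | refl n x => exact ⟨w, hw, by rw [d_self]; omega⟩
  | @step n s x y z he _ ih =>
    obtain ⟨w', h1, h2⟩ := ih (w := g s * w) (by rw [mul_smul, hw, Y.e_f he])
    have := d_triangle w (g s * w) w'
    rw [d_g_mul] at this
    exact ⟨w', h1, by omega⟩

theorem Near.map {B' : Type} [MulAction W B'] {Y' : PS B'} (φ : EHom Y Y') {n : ℕ} {x y : Y.Om}
    (h : Y.Near n x y) : Y'.Near n (φ.π x) (φ.π y) := by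
  induction h with
  | refl n x => exact Near.refl _ _
  | step he _ ih => exact Near.step (φ.e_π he) ih

theorem Shut.compl {U : Set Y.Om} (h : Y.Shut U) : Y.Shut Uᶜ :=
  fun s x y he hx hy => hx (h s y x (Y.e_symm he) hy)

theorem sg_of_free {s : S} {x : Y.Om} (h : Y.Free x s) : Y.sg s x = x := dif_neg h

theorem e_sg {s : S} {x : Y.Om} (h : ¬ Y.Free x s) : Y.e s x (Y.sg s x) := by
  have h' : ∃ y, Y.e s x y := not_not.1 h
  unfold sg
  rw [dif_pos h']
  exact Classical.choose_spec h'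

theorem State.sg_eq (hY : Y.State) {s : S} {x y : Y.Om} (h : Y.e s x y) : Y.sg s x = y :=
  hY.fold (e_sg (fun k => k ⟨y, h⟩)) h

theorem State.sg_sg (hY : Y.State) (s : S) (x : Y.Om) : Y.sg s (Y.sg s x) = x := by
  by_cases h : Y.Free x s
  · rw [sg_of_free h, sg_of_free h]
  · exact hY.sg_eq (Y.e_symm (e_sg h))

@[simp] theorem ev_nil {E : Type} [MulAction W E] (c : Y.Coch E) (ε : E) : ev c [] ε = 0 := rfl

@[simp] theorem ev_cons {E : Type} [MulAction W E] (c : Y.Coch E) (l : Y.Lbl × W) (ch : Y.Path)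
    (ε : E) : ev c (l :: ch) ε = c l.1 (l.2 • ε) + ev c ch ε := by simp [ev]

@[simp] theorem ev_append {E : Type} [MulAction W E] (c : Y.Coch E) (ch ch' : Y.Path) (ε : E) :
    ev c (ch ++ ch') ε = ev c ch ε + ev c ch' ε := by simp [ev]

/-- Right translation of a path. -/
def shift (ch : Y.Path) (γ : W) : Y.Path := ch.map fun lw => (lw.1, lw.2 * γ)

theorem ev_shift {E : Type} [MulAction W E] (c : Y.Coch E) (ch : Y.Path) (γ : W) (ε : E) :
    ev c (shift ch γ) ε = ev c ch (γ • ε) := by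
  simp [ev, shift, Function.comp_def, mul_smul]

namespace TW

variable {P P' : W → W → Prop} {n m k : Y.Node} {l l' : ℕ} {ch ch' : Y.Path}

theorem first (h : Y.TW P n m l ch) : Close n.w n.p ∧ P n.w n.p := by
  cases h <;> exact ⟨‹_›, ‹_›⟩

theorem last (h : Y.TW P n m l ch) : Close m.w m.p ∧ P m.w m.p := by
  induction h with
  | nil n a b => exact ⟨a, b⟩
  | edge _ _ _ _ _ _ ih => exact ih
  | dart _ _ _ _ _ _ _ ih => exact ih
  | stay _ _ _ _ _ ih => exact ih

theorem mono (h : Y.TW P n m l ch) (hP : ∀ w p, Close w p → P w p → P' w p) :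
    Y.TW P' n m l ch := by
  induction h with
  | nil n a b => exact nil n a (hP _ _ a b)
  | edge s a b c e _ ih => exact edge s a (hP _ _ a b) c e ih
  | dart s a b c e f _ ih => exact dart s a (hP _ _ a b) c e f ih
  | stay a b c e _ ih => exact stay a (hP _ _ a b) c e ih

theorem toTT (h : Y.TW P n m l ch) : Y.TW tt n m l ch := h.mono fun _ _ _ _ => trivial

theorem cast (h : Y.TW P n m l ch) (e : l = l') : Y.TW P n m l' ch := e ▸ h

theorem append (h : Y.TW P n m l ch) (h' : Y.TW P m k l' ch') :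
    Y.TW P n k (l + l') (ch ++ ch') := by
  induction h with
  | nil n a b => simpa using h'
  | edge s a b c e _ ih => exact (edge s a b c e (ih h')).cast (by omega)
  | dart s a b c e f _ ih => exact (dart s a b c e f (ih h')).cast (by omega)
  | stay a b c e _ ih => exact (stay a b c e (ih h')).cast (by omega)

theorem d_le (h : Y.TW P n m l ch) : d n.p m.p ≤ l := by
  induction h with
  | nil n a b => rw [d_self]
  | @edge n n' m _ _ _ _ _ _ _ _ ih => have := d_triangle n.p n'.p m.p; omega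
  | @dart n n' m _ _ _ _ _ _ _ _ _ ih => have := d_triangle n.p n'.p m.p; omega
  | @stay n n' m _ _ _ _ _ _ _ ih => have := d_triangle n.p n'.p m.p; omega

/-- All shadows are within the cost of any point plus its distance to the first shadow. -/
theorem ball (h : Y.TW P n m l ch) (c : W) (R : ℕ) (hR : d c n.p + l ≤ R) :
    Y.TW (fun w p => P w p ∧ d c p ≤ R) n m l ch := by
  induction h with
  | nil n a b => exact nil n a ⟨b, by omega⟩
  | @edge n n' m _ _ s a b c' e _ ih =>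
    have := d_triangle c n.p n'.p
    exact edge s a ⟨b, by omega⟩ c' e (ih (by omega))
  | @dart n n' m _ _ s a b c' e f _ ih =>
    have := d_triangle c n.p n'.p
    exact dart s a ⟨b, by omega⟩ c' e f (ih (by omega))
  | @stay n n' m _ _ a b c' e _ ih =>
    have := d_triangle c n.p n'.p
    exact stay a ⟨b, by omega⟩ c' e (ih (by omega))

theorem shift (h : Y.TW tt n m l ch) (γ : W) :
    Y.TW tt ⟨n.x, n.w * γ, n.p * γ⟩ ⟨m.x, m.w * γ, m.p * γ⟩ l (PS.shift ch γ) := by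
  induction h with
  | nil n a b => exact nil _ (a.mul γ) trivial
  | @edge n n' m _ _ s a b c e _ ih =>
    exact (edge (n := ⟨n.x, n.w * γ, n.p * γ⟩) (n' := ⟨n'.x, n'.w * γ, n'.p * γ⟩) s
      (a.mul γ) trivial c
      (by simp only [e, mul_assoc]) ih).cast (by simp only [d_mul])
  | @dart n n' m _ _ s a b c e f _ ih =>
    exact (dart (n := ⟨n.x, n.w * γ, n.p * γ⟩) (n' := ⟨n'.x, n'.w * γ, n'.p * γ⟩) s
      (a.mul γ) trivial c e
      (by simp only [f, mul_assoc]) ih).cast (by simp only [d_mul])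
  | @stay n n' m _ _ a b c e _ ih =>
    exact (stay (n := ⟨n.x, n.w * γ, n.p * γ⟩) (n' := ⟨n'.x, n'.w * γ, n'.p * γ⟩)
      (a.mul γ) trivial c
      (by simp only [e]) ih).cast (by simp only [d_mul])

theorem reverse (h : Y.TW P n m l ch) : ∃ ch', Y.TW P m n l ch' ∧
    ∀ (E : Type) [MulAction W E] (c : Y.Coch E) (ε : E), Cocyc c → ev c ch' ε = ev c ch ε := by
  induction h with
  | nil n a b => exact ⟨[], nil n a b, fun _ _ _ _ _ => rfl⟩
  | @edge n n' m l ch s a b c e t ih =>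
    obtain ⟨ch', h1, h2⟩ := ih
    have h3 : Y.TW P n' n (d n'.p n.p + 0) [(.edge s n'.x n.x, n'.w)] :=
      edge s t.first.1 t.first.2 (Y.e_symm c) (by rw [e, g_mul_g_mul]) (nil n a b)
    refine ⟨_, (h1.append h3).cast (by rw [d_comm]; omega), fun E _ c' ε hc => ?_⟩
    rw [ev_append, h2 E c' ε hc, ev_cons, ev_cons, ev_nil, add_zero, add_comm, e, mul_smul,
      hc.symm s _ _ _ c]
  | @dart n n' m l ch s a b c e f t ih =>
    obtain ⟨ch', h1, h2⟩ := ih
    have h3 : Y.TW P n' n (d n'.p n.p + 0) [(.dart (Y.rev s), n'.w)] :=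
      dart (Y.rev s) t.first.1 t.first.2 e (by rw [Y.rev_rev, c])
        (by rw [f, Y.lab_rev, inv_mul_cancel_left]) (nil n a b)
    refine ⟨_, (h1.append h3).cast (by rw [d_comm]; omega), fun E _ c' ε hc => ?_⟩
    rw [ev_append, h2 E c' ε hc, ev_cons, ev_cons, ev_nil, add_zero, add_comm, f, mul_smul,
      hc.dsym]
  | @stay n n' m l ch a b c e t ih =>
    obtain ⟨ch', h1, h2⟩ := ih
    have h3 : Y.TW P n' n (d n'.p n.p + 0) [] :=
      stay t.first.1 t.first.2 c.symm e.symm (nil n a b)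
    refine ⟨_, (h1.append h3).cast (by rw [d_comm]; omega), fun E _ c' ε hc => ?_⟩
    rw [List.append_nil, h2 E c' ε hc]

/-- Telescoping of coboundaries. -/
theorem ev_isD (h : Y.TW P n m l ch) {E : Type} [MulAction W E] {c : Y.Coch E}
    {φ : Y.Om → E → F2} (hc : IsD c φ) (ε : E) :
    ev c ch ε = φ n.x (n.w • ε) + φ m.x (m.w • ε) := by
  induction h with
  | nil n a b => rw [ev_nil, F2_add_self]
  | edge s a b c' e _ ih =>
    rw [ev_cons, ih, hc.ed s _ _ _ c', e, mul_smul, add_assoc, ← add_assoc (φ _ (g s • _)),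
      F2_add_self, zero_add]
  | dart s a b c' e f _ ih =>
    rw [ev_cons, ih, hc.da, c', e, f, mul_smul, add_assoc, ← add_assoc (φ _ (Y.lab s • _)),
      F2_add_self, zero_add]
  | stay a b c' e _ ih => rw [ih, c', e]

theorem locC (h : Y.TW P n m l ch) {T : Type} {φ : Y.Om → W → T} (hφ : LocC φ) :
    φ m.x m.w = φ n.x n.w := by
  induction h with
  | nil n a b => rfl
  | edge s a b c' e _ ih => rw [ih, e, hφ.ed s _ _ _ c']
  | dart s a b c' e f _ ih => rw [ih, e, f, c', hφ.da]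
  | stay a b c' e _ ih => rw [ih, c', e]

theorem valid (h : Y.TW P n m l ch) {o : B} (hn : n.w • o = Y.f n.x) : m.w • o = Y.f m.x := by
  induction h with
  | nil n a b => exact hn
  | edge s a b c' e _ ih => exact ih (by rw [e, mul_smul, hn, Y.e_f c'])
  | dart s a b c' e f _ ih => exact ih (by rw [f, mul_smul, hn, e, c', Y.f_rev])
  | stay a b c' e _ ih => exact ih (by rw [e, c', hn])

end TW

end PS

open PS

section
variable {B : Type} [MulAction W B] {o : B} {Y Y' Y'' : PS B}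

theorem SameV.nil (pull : ∀ (E : Type) [MulAction W E], Y'.Coch E → Y.Coch E) :
    SameV pull [] [] := fun _ _ _ _ _ => rfl

theorem SameV.append {pull : ∀ (E : Type) [MulAction W E], Y'.Coch E → Y.Coch E}
    {a b : Y.Path} {a' b' : Y'.Path} (h : SameV pull a a') (k : SameV pull b b') :
    SameV pull (a ++ b) (a' ++ b') := fun E _ c ε hc => by
  rw [ev_append, ev_append, h E c ε hc, k E c ε hc]

/-- Composition of moves. -/
def Move.comp (m : Move o Y Y') (m' : Move o Y' Y'') : Move o Y Y'' where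
  K x x'' := ∃ x', m.K x x' ∧ m'.K x' x''
  pull E _ c := m.pull E (m'.pull E c)
  K_f := by
    rintro x x'' ⟨x', a, b⟩
    rw [m'.K_f _ _ b, m.K_f _ _ a]
  cocyc E _ c hc := m.cocyc E _ (m'.cocyc E c hc)
  refl E _ c hc h := m'.refl E c hc (m.refl E _ (m'.cocyc E c hc) h)
  trans := by
    rintro n k x'' y'' l ch ⟨x', a, b⟩ ⟨y', a', b'⟩ h
    obtain ⟨l1, ch1, h1, h2, h3⟩ := m.trans n k x' y' l ch a a' h
    obtain ⟨l2, ch2, h4, h5, h6⟩ := m'.trans _ _ x'' y'' l1 ch1 b b' h2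
    exact ⟨l2, ch2, h4.trans h1, h5, fun E _ c ε hc => by
      rw [h3 E _ ε (m'.cocyc E c hc), h6 E c ε hc]⟩
  h0 := by
    rintro x x'' ⟨x', a, b⟩ h
    exact m'.h0 _ _ b (m.h0 _ _ a h)

theorem SameV.comp (m : Move o Y Y') (m' : Move o Y' Y'') {a : Y.Path} {b : Y'.Path}
    {c : Y''.Path} (h : SameV m.pull a b) (k : SameV m'.pull b c) :
    SameV (m.comp m').pull a c := fun E _ c' ε hc => by
  show ev (m.pull E (m'.pull E c')) a ε = _
  rw [h E _ ε (m'.cocyc E c' hc), k E c' ε hc]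

/-- Image of a path under a morphism. -/
def Hom.path (φ : Hom Y Y') (ch : Y.Path) : Y'.Path := ch.map fun lw => (φ.lbl lw.1, lw.2)

theorem Hom.ev_path (φ : Hom Y Y') {E : Type} [MulAction W E] (c : Y'.Coch E) (ch : Y.Path)
    (ε : E) : ev (fun l => c (φ.lbl l) : Y.Coch E) ch ε = ev c (φ.path ch) ε := by
  simp [ev, Hom.path, Function.comp_def]

theorem Hom.tw (φ : Hom Y Y') {P : W → W → Prop} {n m : Y.Node} {l : ℕ} {ch : Y.Path}
    (h : Y.TW P n m l ch) :
    Y'.TW P ⟨φ.π n.x, n.w, n.p⟩ ⟨φ.π m.x, m.w, m.p⟩ l (φ.path ch) := by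
  induction h with
  | nil n a b => exact TW.nil _ a b
  | @edge n n' m _ _ s a b c e _ ih =>
    exact TW.edge (n := ⟨φ.π n.x, n.w, n.p⟩) s a b (φ.e_π c) e ih
  | @dart n n' m _ _ s a b c e f _ ih =>
    exact TW.dart (n := ⟨φ.π n.x, n.w, n.p⟩) (φ.α s) a b (by rw [φ.src_α, c])
      (by rw [φ.rev_α, φ.src_α, e]) (by rw [φ.lab_α]; exact f) ih
  | @stay n n' m _ _ a b c e _ ih =>
    exact TW.stay (n := ⟨φ.π n.x, n.w, n.p⟩) a b (by rw [c]) e ih

theorem Hom.cocyc (φ : Hom Y Y') {E : Type} [MulAction W E] {c : Y'.Coch E} (hc : Cocyc c) :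
    Cocyc (fun l => c (φ.lbl l) : Y.Coch E) where
  symm s x y ε h := hc.symm s _ _ ε (φ.e_π h)
  dsym a ε := by
    have := hc.dsym (φ.α a) ε
    rw [φ.rev_α, φ.lab_α] at this
    exact this
  sq s t x0 x1 x2 x3 ε h a b c' e := hc.sq s t _ _ _ _ ε h (φ.e_π a) (φ.e_π b) (φ.e_π c') (φ.e_π e)

/-- A good morphism is a move. -/
def Hom.move (o : B) (φ : Hom Y Y') (h : φ.Good) : Move o Y Y' where
  K x x' := x' = φ.π x
  pull _ _ c := fun l => c (φ.lbl l)
  K_f := by rintro x _ rfl; exact φ.f_π x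
  cocyc _ _ _ hc := φ.cocyc hc
  refl E _ c hc k := h.refl E c hc k
  trans := by
    rintro n m _ _ l ch rfl rfl k
    exact ⟨l, _, le_rfl, φ.tw k, fun E _ c ε _ => φ.ev_path c ch ε⟩
  h0 := by rintro x _ rfl k; exact h.h0 o x k

theorem Hom.lbl_id (l : Y.Lbl) : (Hom.id Y).lbl l = l := by cases l <;> rfl

theorem Hom.lbl_comp (φ : Hom Y Y') (ψ : Hom Y' Y'') (l : Y.Lbl) :
    (φ.comp ψ).lbl l = ψ.lbl (φ.lbl l) := by cases l <;> rfl

theorem Hom.good_id : (Hom.id Y).Good where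
  refl E _ c _ k := by simpa only [Hom.lbl_id] using k
  h0 _ _ k := k

theorem Hom.Good.comp {φ : Hom Y Y'} {ψ : Hom Y' Y''} (h : φ.Good) (k : ψ.Good) :
    (φ.comp ψ).Good where
  refl E _ c hc q := k.refl E c hc (h.refl E _ (ψ.cocyc hc) (by
    simpa only [Hom.lbl_comp] using q))
  h0 o x q := k.h0 o _ (h.h0 o x q)

theorem Hom.new_id : (Hom.id Y).new = 0 := by
  unfold Hom.new
  have : {y | y ∉ Set.range (Hom.id Y).π} = ∅ := by
    ext y; simp only [Set.mem_ofPred_eq, Set.mem_empty_iff_false, iff_false, not_not]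
    exact ⟨y, rfl⟩
  rw [this, Set.ncard_empty]

theorem Hom.new_comp (φ : Hom Y Y') (ψ : Hom Y' Y'') : (φ.comp ψ).new ≤ φ.new + ψ.new := by
  unfold Hom.new
  have h : {y | y ∉ Set.range (φ.comp ψ).π} ⊆
      ψ.π '' {y | y ∉ Set.range φ.π} ∪ {y | y ∉ Set.range ψ.π} := by
    intro y hy
    by_cases k : y ∈ Set.range ψ.π
    · obtain ⟨x, rfl⟩ := k
      refine Or.inl ⟨x, ?_, rfl⟩
      rintro ⟨z, rfl⟩
      exact hy ⟨z, rfl⟩
    · exact Or.inr k
  exact (Set.ncard_le_ncard h).trans ((Set.ncard_union_le _ _).trans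
    (Nat.add_le_add_right (Set.ncard_image_le) _))

theorem Hom.vol_le (φ : Hom Y Y') : Y'.vol ≤ Y.vol + φ.new := by
  unfold Hom.new PS.vol
  have h : (Set.univ : Set Y'.Om) ⊆ φ.π '' Set.univ ∪ {y | y ∉ Set.range φ.π} := by
    intro y _
    by_cases k : y ∈ Set.range φ.π
    · obtain ⟨x, rfl⟩ := k; exact Or.inl ⟨x, trivial, rfl⟩
    · exact Or.inr k
  rw [← Set.ncard_univ, ← Set.ncard_univ]
  exact (Set.ncard_le_ncard h).trans ((Set.ncard_union_le _ _).trans
    (Nat.add_le_add_right (Set.ncard_image_le) _))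

theorem Hom.ctl_id : (Hom.id Y).Ctl 0 where
  area := by rw [Hom.new_id]
  pot := le_rfl
  near n u v h := PS.Near.mono (Y := Y) h (by omega)

theorem Hom.Ctl.comp {φ : Hom Y Y'} {ψ : Hom Y' Y''} {κ : ℕ} (h : φ.Ctl κ) (k : ψ.Ctl 0) :
    (φ.comp ψ).Ctl κ where
  area := by have := h.area; have := k.area; have := φ.new_comp ψ; omega
  pot := by have := h.pot; have := k.pot; omega
  near n u v q := by
    have h1 := h.near _ u v (k.near n _ _ q)
    have := h.pot; have := k.pot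
    exact h1.mono (by omega)

theorem Move.list (m : Move o Y Y') {x0 : Y.Om} {x0' : Y'.Om} (hK : m.K x0 x0')
    (Λ : List (ℕ × Y.Path)) (h : ∀ l ∈ Λ, Y.TW tt ⟨x0, 1, 1⟩ ⟨x0, 1, 1⟩ l.1 l.2) :
    ∃ Λ' : List (ℕ × Y'.Path), meas Λ' ≤ meas Λ ∧
      (∀ l ∈ Λ', Y'.TW tt ⟨x0', 1, 1⟩ ⟨x0', 1, 1⟩ l.1 l.2) ∧
      ∀ l ∈ Λ, ∃ l' ∈ Λ', SameV m.pull l.2 l'.2 := by
  induction Λ with
  | nil => exact ⟨[], le_rfl, by simp, by simp⟩
  | cons l Λ ih =>
    obtain ⟨Λ', a, b, c⟩ := ih fun l hl => h l (List.mem_cons_of_mem _ hl)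
    obtain ⟨l', ch', h1, h2, h3⟩ := m.trans _ _ x0' x0' _ _ hK hK (h l List.mem_cons_self)
    refine ⟨(l', ch') :: Λ', by rw [meas_cons, meas_cons]; simp only; omega, ?_, ?_⟩
    · intro q hq
      rcases List.mem_cons.1 hq with rfl | hq
      · exact h2
      · exact b q hq
    · intro q hq
      rcases List.mem_cons.1 hq with rfl | hq
      · exact ⟨_, List.mem_cons_self, h3⟩
      · obtain ⟨q', a', b'⟩ := c q hq
        exact ⟨q', List.mem_cons_of_mem _ a', b'⟩

/-- Transport of the invariant, given images of all loops. -/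
theorem Move.invL (m : Move o Y Y') {x0 : Y.Om} {x0' : Y'.Om} (hK : m.K x0 x0') {r : ℕ}
    {Λ : List (ℕ × Y.Path)} (h : Y.InvL o x0 r Λ) {Λ' : List (ℕ × Y'.Path)}
    (h1 : ∀ l ∈ Λ', Y'.TW tt ⟨x0', 1, 1⟩ ⟨x0', 1, 1⟩ l.1 l.2)
    (h2 : ∀ l ∈ Λ, SameV m.pull l.2 [] ∨ ∃ l' ∈ Λ', SameV m.pull l.2 l'.2) :
    Y'.InvL o x0' r Λ' where
  h0 := m.h0 _ _ hK h.h0
  b1 := by
    obtain ⟨lam, a, b⟩ := h.b1
    have : ∀ i, ∃ ch', (∃ γ l, Y'.TW tt ⟨x0', 1, 1⟩ ⟨x0', γ, γ⟩ l ch') ∧
        SameV m.pull (lam i) ch' := by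
      intro i
      obtain ⟨γ, l, k⟩ := a i
      obtain ⟨l', ch', _, k2, k3⟩ := m.trans _ _ x0' x0' _ _ hK hK k
      exact ⟨ch', ⟨γ, l', k2⟩, k3⟩
    choose lam' a' b' using this
    refine ⟨lam', a', fun c hc hz => m.refl _ c hc (b _ (m.cocyc _ c hc) fun i => ?_)⟩
    rw [b' i Unit c () hc, hz i]
  loops := h1
  rel c hc hz := by
    refine m.refl _ c hc (h.rel _ (m.cocyc _ c hc) fun l hl ε => ?_)
    rcases h2 l hl with k | ⟨l', a, b⟩
    · rw [k W c ε hc, ev_nil]
    · rw [b W c ε hc, hz l' a]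

theorem Move.inv (m : Move o Y Y') {x0 : Y.Om} {x0' : Y'.Om} (hK : m.K x0 x0') {r μ : ℕ}
    (h : Y.Inv o x0 r μ) : Y'.Inv o x0' r μ := by
  obtain ⟨Λ, a, b⟩ := h
  obtain ⟨Λ', c, e, f⟩ := m.list hK Λ a.loops
  exact ⟨Λ', m.invL hK a e fun l hl => Or.inr (f l hl), c.trans b⟩

/-- The head loop is replaced by a strictly cheaper one. -/
theorem Move.inv_head (m : Move o Y Y') {x0 : Y.Om} {x0' : Y'.Om} (hK : m.K x0 x0') {r : ℕ}
    {l : ℕ × Y.Path} {Λ : List (ℕ × Y.Path)} (h : Y.InvL o x0 r (l :: Λ)) {l' : ℕ}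
    {ch' : Y'.Path} (h1 : Y'.TW tt ⟨x0', 1, 1⟩ ⟨x0', 1, 1⟩ l' ch') (h2 : SameV m.pull l.2 ch')
    (h3 : l' < l.1) : ∃ Λ', Y'.InvL o x0' r Λ' ∧ meas Λ' < meas (l :: Λ) := by
  obtain ⟨Λ', c, e, f⟩ := m.list hK Λ fun q hq => h.loops q (List.mem_cons_of_mem _ hq)
  refine ⟨(l', ch') :: Λ', m.invL hK h ?_ ?_, by rw [meas_cons, meas_cons]; simp only; omega⟩
  · intro q hq
    rcases List.mem_cons.1 hq with rfl | hq
    · exact h1
    · exact e q hq
  · intro q hq
    rcases List.mem_cons.1 hq with rfl | hq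
    · exact Or.inr ⟨_, List.mem_cons_self, h2⟩
    · obtain ⟨q', a', b'⟩ := f q hq
      exact Or.inr ⟨q', List.mem_cons_of_mem _ a', b'⟩

/-- The head loop is killed. -/
theorem Move.inv_kill (m : Move o Y Y') {x0 : Y.Om} {x0' : Y'.Om} (hK : m.K x0 x0') {r : ℕ}
    {l : ℕ × Y.Path} {Λ : List (ℕ × Y.Path)} (h : Y.InvL o x0 r (l :: Λ))
    (h2 : SameV m.pull l.2 []) : ∃ Λ', Y'.InvL o x0' r Λ' ∧ meas Λ' < meas (l :: Λ) := by
  obtain ⟨Λ', c, e, f⟩ := m.list hK Λ fun q hq => h.loops q (List.mem_cons_of_mem _ hq)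
  refine ⟨Λ', m.invL hK h e ?_, by rw [meas_cons]; omega⟩
  intro q hq
  rcases List.mem_cons.1 hq with rfl | hq
  · exact Or.inl h2
  · exact Or.inr (f q hq)

theorem PS.Inv.h0 {x0 : Y.Om} {r μ : ℕ} (h : Y.Inv o x0 r μ) : Y.H0 o x0 := by
  obtain ⟨Λ, a, _⟩ := h; exact a.h0

theorem PS.Tight.mono {x0 : Y.Om} {r C C' : ℕ} (h : Y.Tight o x0 r C) (k : C' ≤ C) :
    Y.Tight o x0 r C' := fun Y' x0' a b c => h Y' x0' a b (by omega)

theorem PS.Tight.move {x0 : Y.Om} {r C : ℕ} (h : Y.Tight o x0 r C) (m : Move o Y Y')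
    {x0' : Y'.Om} (hK : m.K x0 x0') (hs : Y'.State) (hv : Y'.vol ≤ Y.vol + C) :
    Y.area ≤ Y'.area := h Y' x0' hs (fun _ k => m.inv hK k) hv

end

namespace PS

variable {B : Type} [MulAction W B] {Y : PS B}

theorem je_symm {J : Finset S} {x y : Y.Om} (h : Relation.ReflTransGen (Y.JE J) x y) :
    Relation.ReflTransGen (Y.JE J) y x := by
  induction h with
  | refl => exact Relation.ReflTransGen.refl
  | tail _ k ih =>
    obtain ⟨s, hs, e⟩ := k
    exact Relation.ReflTransGen.head ⟨s, hs, Y.e_symm e⟩ ih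

theorem cell_eq_iff {x y : Y.Om} {J J' : Finset S} :
    Y.cell x J = Y.cell y J' ↔ J = J' ∧ Relation.ReflTransGen (Y.JE J) x y := by
  constructor
  · intro h
    have key : ∀ p q : Y.Om × Finset S,
        Relation.EqvGen (fun p q : Y.Om × Finset S => p.2 = q.2 ∧ Y.JE p.2 p.1 q.1) p q →
        p.2 = q.2 ∧ Relation.ReflTransGen (Y.JE p.2) p.1 q.1 := by
      intro p q k
      induction k with
      | rel p q k => exact ⟨k.1, Relation.ReflTransGen.single k.2⟩
      | refl p => exact ⟨rfl, Relation.ReflTransGen.refl⟩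
      | symm p q _ ih =>
        refine ⟨ih.1.symm, ?_⟩
        rw [← ih.1]
        exact je_symm ih.2
      | trans p q r _ _ ih1 ih2 =>
        refine ⟨ih1.1.trans ih2.1, ih1.2.trans ?_⟩
        rw [ih1.1]; exact ih2.2
    exact key _ _ (Quot.eqvGen_exact h)
  · rintro ⟨rfl, h⟩
    induction h with
    | refl => rfl
    | tail _ k ih => exact ih.trans (Y.cell_step k)

theorem cell_ind (c : Y.Cell) : ∃ x J, c = Y.cell x J := by
  induction c using Quot.ind with
  | mk p => exact ⟨p.1, p.2, rfl⟩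

theorem cell_e {s : S} {x y : Y.Om} {J : Finset S} (hs : s ∈ J) (h : Y.e s x y) :
    Y.cell x J = Y.cell y J := Y.cell_step ⟨s, hs, h⟩

theorem cell_sg {s : S} (x : Y.Om) {J : Finset S} (hs : s ∈ J) :
    Y.cell (Y.sg s x) J = Y.cell x J := by
  by_cases h : Y.Free x s
  · rw [sg_of_free h]
  · exact (cell_e hs (e_sg h)).symm

theorem cell_mono {x y : Y.Om} {J J' : Finset S} (h : Y.cell x J = Y.cell y J) (k : J ⊆ J') :
    Y.cell x J' = Y.cell y J' :=
  cell_eq_iff.2 ⟨rfl, Relation.ReflTransGen.mono (fun _ _ ⟨s, hs, e⟩ => ⟨s, k hs, e⟩)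
    _ _ (cell_eq_iff.1 h).2⟩

theorem cell_empty_inj {x y : Y.Om} (h : Y.cell x ∅ = Y.cell y ∅) : x = y := by
  have := (cell_eq_iff.1 h).2
  induction this with
  | refl => rfl
  | tail _ k _ => obtain ⟨s, hs, _⟩ := k; simp at hs

theorem State.cell_one (hY : Y.State) {x y : Y.Om} {s : S} :
    Y.cell x {s} = Y.cell y {s} ↔ y = x ∨ Y.e s x y := by
  constructor
  · intro h
    have := (cell_eq_iff.1 h).2
    clear h
    induction this with
    | refl => exact Or.inl rfl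
    | tail _ k ih =>
      obtain ⟨t, ht, e⟩ := k
      obtain rfl := Finset.mem_singleton.1 ht
      rcases ih with rfl | ih
      · exact Or.inr e
      · exact Or.inl (hY.fold e (Y.e_symm ih))
  · rintro (rfl | h)
    · rfl
    · exact cell_e (Finset.mem_singleton_self s) h

theorem cell_near {x y : Y.Om} {J : Finset S} (h : Y.cell x J = Y.cell y J) :
    ∃ n, Y.Near n x y := by
  have := (cell_eq_iff.1 h).2
  clear h
  induction this with
  | refl => exact ⟨0, Near.refl _ _⟩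
  | tail _ k ih =>
    obtain ⟨n, ih⟩ := ih
    obtain ⟨s, _, e⟩ := k
    exact ⟨n + 1, ih.trans (Near.single e)⟩

theorem Near.cell_univ {n : ℕ} {x y : Y.Om} (h : Y.Near n x y) :
    Y.cell x Finset.univ = Y.cell y Finset.univ := by
  induction h with
  | refl => rfl
  | step e _ ih => exact (cell_e (Finset.mem_univ _) e).trans ih

theorem bd_single (x : Y.Om) (J : Finset S) (a : F2) :
    Y.bd (Finsupp.single (Y.cell x J) a) =
      ∑ t ∈ Finset.univ.filter (fun t => ∀ s ∈ J, adj s t),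
        Finsupp.single (Y.cell x (insert t J)) a := by
  unfold bd
  rw [Finsupp.linearCombination_single]
  show a • (∑ t ∈ Finset.univ.filter (fun t => ∀ s ∈ J, adj s t),
      Finsupp.single (Y.cell x (insert t J)) (1 : F2)) = _
  rw [Finset.smul_sum]
  simp

theorem bd_bd (u : Y.Chain) : Y.bd (Y.bd u) = 0 := by
  induction u using Finsupp.induction_linear with
  | zero => simp
  | add a b ha hb => rw [map_add, map_add, ha, hb, add_zero]
  | single c a =>
    obtain ⟨x, J, rfl⟩ := cell_ind c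
    rw [bd_single, map_sum]
    simp only [bd_single]
    rw [Finset.sum_sigma']
    refine Finset.sum_involution (fun p _ => ⟨p.2, p.1⟩) ?_ ?_ ?_ ?_
    · rintro ⟨t, u⟩ _
      simp only
      rw [Finset.insert_comm, ← Finsupp.single_add, F2_add_self, Finsupp.single_zero]
    · rintro ⟨t, u⟩ h _ k
      simp only [Finset.mem_sigma, Finset.mem_filter, Finset.mem_univ, true_and] at h
      have := h.2 t (Finset.mem_insert_self _ _)
      simp only [Sigma.mk.injEq, heq_eq_eq] at k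
      exact adj_ne this k.2
    · rintro ⟨t, u⟩ h
      simp only [Finset.mem_sigma, Finset.mem_filter, Finset.mem_univ, true_and] at h ⊢
      refine ⟨fun s hs => h.2 s (Finset.mem_insert_of_mem hs), fun s hs => ?_⟩
      rcases Finset.mem_insert.1 hs with rfl | hs
      · exact adj_symm (h.2 t (Finset.mem_insert_self _ _))
      · exact h.1 s hs
    · rintro ⟨t, u⟩ _; rfl

end PS

namespace EHom

variable {B B' B'' : Type} [MulAction W B] [MulAction W B'] [MulAction W B''] {Y : PS B}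
  {Y' : PS B'} {Y'' : PS B''}

theorem cmap_cell (φ : EHom Y Y') (x : Y.Om) (J : Finset S) :
    φ.cmap (Y.cell x J) = Y'.cell (φ.π x) J := rfl

theorem push_single (φ : EHom Y Y') (x : Y.Om) (J : Finset S) (a : F2) :
    φ.push (Finsupp.single (Y.cell x J) a) = Finsupp.single (Y'.cell (φ.π x) J) a := by
  unfold push
  rw [Finsupp.lmapDomain_apply, Finsupp.mapDomain_single, cmap_cell]

theorem push_bd (φ : EHom Y Y') (u : Y.Chain) : φ.push (Y.bd u) = Y'.bd (φ.push u) := by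
  induction u using Finsupp.induction_linear with
  | zero => simp
  | add a b ha hb => simp only [map_add, ha, hb]
  | single c a =>
    obtain ⟨x, J, rfl⟩ := cell_ind c
    rw [push_single, bd_single, bd_single, map_sum]
    simp only [push_single]

theorem push_comp (φ : EHom Y Y') (ψ : EHom Y' Y'') (u : Y.Chain) :
    (φ.comp ψ).push u = ψ.push (φ.push u) := by
  induction u using Finsupp.induction_linear with
  | zero => simp
  | add a b ha hb => simp only [map_add, ha, hb]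
  | single c a =>
    obtain ⟨x, J, rfl⟩ := cell_ind c
    rw [push_single, push_single, push_single]; rfl

theorem support_push (φ : EHom Y Y') (u : Y.Chain) :
    (φ.push u).support ⊆ u.support.image φ.cmap := Finsupp.mapDomain_support

theorem card_support_push (φ : EHom Y Y') (u : Y.Chain) :
    (φ.push u).support.card ≤ u.support.card :=
  (Finset.card_le_card (φ.support_push u)).trans Finset.card_image_le

end EHom

end Pool.Agent.MP_df844f_gt
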