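import Pool.Agent.MP_df844f_gt.SpecW

namespace Pool.Agent.MP_df844f_gt

open PS

/-- Short elements act without fixed points. -/
def Loc (B : Type) [MulAction W B] : Prop := ∀ (b : B) (w : W), len w ≤ 3 → w • b = b → w = 1

theorem loc_of {B : Type} [MulAction W B] {o : B} (h1 : Trans o) (h2 : Thick o 3) : Loc B := by
  intro b w hw h
  obtain ⟨v, rfl⟩ := h1 b
  have := h2 v (w * v) (by rw [mul_smul, h]) (by rw [d_mul_left]; exact hw)
  simpa using this.symm

theorem g_ne_one (s : S) : g s ≠ 1 := fun h => by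
  have := len_g s; rw [h, len_one] at this; omega

theorem infinite_W : Infinite W := by
  have h : ¬ IsOfFinOrder (g 0 * g 11) := by
    rw [isOfFinOrder_iff_pow_eq_one]
    rintro ⟨n, hn, k⟩
    obtain ⟨m, rfl⟩ : ∃ m, n = m + 1 := ⟨n - 1, by omega⟩
    exact pow_ne_one (by decide) (by decide) m k
  exact Infinite.of_injective _ (injective_pow_iff_not_isOfFinOrder.2 h)

/-- Paths of length at most `n` for a relation. -/
inductive Rn {α : Type} (R : α → α → Prop) : ℕ → α → α → Prop
  | refl (n x) : Rn R n x x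
  | step {n x y z} : R x y → Rn R n y z → Rn R (n + 1) x z

theorem Rn.mono {α : Type} {R : α → α → Prop} {n m : ℕ} {x y : α} (h : Rn R n x y) (k : n ≤ m) :
    Rn R m x y := by
  induction h generalizing m with
  | refl n x => exact Rn.refl _ _
  | step he _ ih =>
    obtain ⟨m, rfl⟩ : ∃ m', m = m' + 1 := ⟨m - 1, by omega⟩
    exact Rn.step he (ih (by omega))

theorem Rn.trans {α : Type} {R : α → α → Prop} {n m : ℕ} {x y z : α} (h : Rn R n x y)
    (k : Rn R m y z) : Rn R (n + m) x z := by
  induction h with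
  | refl n x => exact k.mono (by omega)
  | step he _ ih => rw [Nat.add_right_comm]; exact Rn.step he (ih k)

theorem Rn.single {α : Type} {R : α → α → Prop} {x y : α} (h : R x y) : Rn R 1 x y :=
  Rn.step h (Rn.refl 0 y)

theorem Rn.symm {α : Type} {R : α → α → Prop} (hR : ∀ a b, R a b → R b a) {n : ℕ} {x y : α}
    (h : Rn R n x y) : Rn R n y x := by
  induction h with
  | refl n x => exact Rn.refl _ _
  | step he _ ih => exact ih.trans (Rn.single (hR _ _ he))

theorem Rn.tail_cases {α : Type} {R : α → α → Prop} {n : ℕ} {x z : α} (h : Rn R (n + 1) x z) :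
    Rn R n x z ∨ ∃ y, Rn R n x y ∧ R y z := by
  induction n generalizing x with
  | zero =>
    cases h with
    | refl => exact Or.inl (Rn.refl _ _)
    | step a b => cases b; exact Or.inr ⟨x, Rn.refl _ _, a⟩
  | succ n ih =>
    cases h with
    | refl => exact Or.inl (Rn.refl _ _)
    | step a b =>
      rcases ih b with k | ⟨y, k1, k2⟩
      · exact Or.inl (Rn.step a k)
      · exact Or.inr ⟨y, Rn.step a k1, k2⟩

/-- Inside a finite set, reachable points are reachable in at most `card` steps. -/
theorem rn_of_reflTransGen {α : Type} {R : α → α → Prop} (D : Finset α)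
    (hD : ∀ a b, R a b → b ∈ D) {x y : α} (h : Relation.ReflTransGen R x y) : Rn R D.card x y := by
  classical
  have key : ∀ n, (∀ z, Rn R (n + 1) x z → Rn R n x z) ∨
      n + 1 ≤ (D.filter fun z => z ≠ x ∧ Rn R (n + 1) x z).card := by
    intro n
    induction n with
    | zero =>
      by_cases k : ∀ z, Rn R 1 x z → Rn R 0 x z
      · exact Or.inl k
      · push Not at k
        obtain ⟨z, k1, k2⟩ := k
        refine Or.inr (Finset.card_pos.2 ⟨z, Finset.mem_filter.2 ⟨?_, ?_, k1⟩⟩)
        · rcases k1.tail_cases with q | ⟨y, _, q⟩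
          · exact absurd q k2
          · exact hD _ _ q
        · rintro rfl; exact k2 (Rn.refl _ _)
    | succ n ih =>
      by_cases k : ∀ z, Rn R (n + 2) x z → Rn R (n + 1) x z
      · exact Or.inl k
      · push Not at k
        obtain ⟨z, k1, k2⟩ := k
        rcases ih with ih | ih
        · exfalso
          rcases k1.tail_cases with q | ⟨y, q1, q2⟩
          · exact k2 q
          · exact k2 ((ih y q1).trans (Rn.single q2))
        · right
          have hz : z ∈ D.filter fun z => z ≠ x ∧ Rn R (n + 2) x z := by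
            refine Finset.mem_filter.2 ⟨?_, ?_, k1⟩
            · rcases k1.tail_cases with q | ⟨y, _, q⟩
              · exact absurd q k2
              · exact hD _ _ q
            · rintro rfl; exact k2 (Rn.refl _ _)
          have hs : (D.filter fun z => z ≠ x ∧ Rn R (n + 1) x z) ⊂
              D.filter fun z => z ≠ x ∧ Rn R (n + 2) x z := by
            refine ⟨fun a ha => ?_, fun q => k2 (Finset.mem_filter.1 (q hz)).2.2⟩
            obtain ⟨a1, a2, a3⟩ := Finset.mem_filter.1 ha
            exact Finset.mem_filter.2 ⟨a1, a2, a3.mono (by omega)⟩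
          have := Finset.card_lt_card hs
          show n + 1 + 1 ≤ (D.filter fun z => z ≠ x ∧ Rn R (n + 2) x z).card
          omega
  rcases key D.card with k | k
  · induction h with
    | refl => exact Rn.refl _ _
    | tail _ q ih => exact k _ (ih.trans (Rn.single q))
  · have := Finset.card_filter_le D fun z => z ≠ x ∧ Rn R (D.card + 1) x z
    omega

namespace PS

variable {B : Type} [MulAction W B] {Y : PS B}

theorem e_ne (hB : Loc B) {s : S} {x y : Y.Om} (h : Y.e s x y) : x ≠ y := by
  rintro rfl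
  exact g_ne_one s (hB _ _ (by rw [len_g]; omega) (Y.e_f h).symm)

theorem near_of_rn {R : Y.Om → Y.Om → Prop} {k : ℕ} (hR : ∀ a b, R a b → Y.Near k a b) {n : ℕ}
    {x y : Y.Om} (h : Rn R n x y) : Y.Near (k * n) x y := by
  induction h with
  | refl n x => exact Near.refl _ _
  | step a _ ih => rw [Nat.mul_succ, add_comm]; exact (hR _ _ a).trans ih

theorem near_sg (s : S) (x : Y.Om) : Y.Near 1 x (Y.sg s x) := by
  by_cases h : Y.Free x s
  · rw [sg_of_free h]; exact Near.refl _ _
  · exact Near.single (e_sg h)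

theorem State.sg3 (hY : Y.State) {s t : S} (h : adj s t) (x : Y.Om) :
    Y.sg s (Y.sg t (Y.sg s x)) = x ∨ Y.sg s (Y.sg t (Y.sg s x)) = Y.sg t x ∨
      Y.sg s (Y.sg t (Y.sg s x)) = Y.sg t (Y.sg s x) ∨
      Y.sg s (Y.sg t (Y.sg s x)) = Y.sg s (Y.sg t x) := by
  by_cases a : Y.Free x s
  · rw [sg_of_free a]; simp
  · by_cases b : Y.Free (Y.sg s x) t
    · rw [sg_of_free b, hY.sg_sg]; simp
    · by_cases c : Y.Free (Y.sg t (Y.sg s x)) s
      · rw [sg_of_free c]; simp
      · have := hY.close h (e_sg a) (e_sg b) (e_sg c)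
        exact Or.inr (Or.inl (hY.sg_eq (Y.e_symm this)).symm)

/-- Description of rank 2 orbits. -/
theorem State.orb2 (hY : Y.State) {s t : S} (h : adj s t) {x y : Y.Om}
    (k : Y.cell x {s, t} = Y.cell y {s, t}) :
    y = x ∨ y = Y.sg s x ∨ y = Y.sg t x ∨ y = Y.sg t (Y.sg s x) ∨ y = Y.sg s (Y.sg t x) := by
  have := (cell_eq_iff.1 k).2
  clear k
  induction this with
  | refl => exact Or.inl rfl
  | tail _ q ih =>
    obtain ⟨u, hu, e⟩ := q
    rw [← hY.sg_eq e]
    have h3 := hY.sg3 h x
    have h4 := hY.sg3 (adj_symm h) x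
    simp only [Finset.mem_insert, Finset.mem_singleton] at hu
    rcases hu with rfl | rfl <;> rcases ih with rfl | rfl | rfl | rfl | rfl <;>
      (try simp only [hY.sg_sg]) <;> tauto

theorem State.near_orb2 (hY : Y.State) {s t : S} (h : adj s t) {x y : Y.Om}
    (k : Y.cell x {s, t} = Y.cell y {s, t}) : Y.Near 2 x y := by
  rcases hY.orb2 h k with rfl | rfl | rfl | rfl | rfl
  · exact Near.refl _ _
  · exact (near_sg _ _).mono (by omega)
  · exact (near_sg _ _).mono (by omega)
  · exact (near_sg _ _).trans (near_sg _ _)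
  · exact (near_sg _ _).trans (near_sg _ _)

theorem State.badj_near (hY : Y.State) {p q : Y.Om × S} (h : Y.BAdj p q) : Y.Near 2 p.1 q.1 := by
  obtain ⟨_, _, t, t', a, _, c⟩ := h
  have e := (cell_eq_iff.1 c).1
  rw [← e] at c
  exact hY.near_orb2 a c

theorem State.bconn_near (hY : Y.State) {D : Finset (Y.Om × S)} (h : Y.BConn D) {p q : Y.Om × S}
    (hp : p ∈ D) (hq : q ∈ D) : Y.Near (2 * D.card) p.1 q.1 := by
  have := rn_of_reflTransGen D (fun a b k => k.2.1) (h.2 p hp q hq)
  generalize D.card = n at this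
  clear hp hq
  induction this with
  | refl n x => exact Near.refl _ _
  | step a _ ih => rw [Nat.mul_succ, add_comm]; exact (hY.badj_near a.2.2).trans ih

theorem State.ball (hY : Y.State) (x : Y.Om) (R : ℕ) : {y | Y.Near R x y}.ncard ≤ 13 ^ R := by
  induction R with
  | zero =>
    have : {y | Y.Near 0 x y} ⊆ {x} := by
      intro y hy; cases hy; rfl
    simpa using Set.ncard_le_ncard this
  | succ R ih =>
    have : {y | Y.Near (R + 1) x y} ⊆ (fun p : Y.Om × Option S =>
        match p.2 with | none => p.1 | some s => Y.sg s p.1) ''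
          ({y | Y.Near R x y} ×ˢ Set.univ) := by
      intro y hy
      have hy' : Y.Near (R + 1) y x := Near.symm hy
      cases hy' with
      | refl => exact ⟨(x, none), ⟨Near.refl _ _, trivial⟩, rfl⟩
      | @step _ s _ z _ a b => exact ⟨(z, some s), ⟨b.symm, trivial⟩, hY.sg_eq (Y.e_symm a)⟩
    refine (Set.ncard_le_ncard this).trans ((Set.ncard_image_le (Set.toFinite _)).trans ?_)
    rw [Set.ncard_prod, Set.ncard_univ, pow_succ]
    exact Nat.mul_le_mul ih (by simp)

theorem Full.mono {x : Y.Om} {J J' : Finset S} (h : Y.Full x J') (k : J ⊆ J') : Y.Full x J :=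
  fun y hy s hs => h y (cell_mono hy k) s (k hs)

theorem Full.congr {x y : Y.Om} {J : Finset S} (h : Y.Full x J) (k : Y.cell y J = Y.cell x J) :
    Y.Full y J := fun z hz => h z (hz.trans k)

theorem State.full_one (hY : Y.State) {x : Y.Om} {s : S} : Y.Full x {s} ↔ ¬ Y.Free x s := by
  constructor
  · intro h; exact h x rfl s (Finset.mem_singleton_self s)
  · intro h y hy t ht
    obtain rfl := Finset.mem_singleton.1 ht
    rcases hY.cell_one.1 hy with rfl | k
    · exact h
    · exact fun q => q ⟨x, k⟩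

theorem ch0_apply (Z : Finset Y.Om) (y : Y.Om) [Decidable (y ∈ Z)] :
    Y.ch0 Z (Y.cell y ∅) = if y ∈ Z then 1 else 0 := by
  classical
  unfold ch0
  rw [Finsupp.finsetSum_apply]
  have : ∀ x ∈ Z, (Finsupp.single (Y.cell x ∅) (1 : F2)) (Y.cell y ∅) = if x = y then 1 else 0 := by
    intro x _
    rw [Finsupp.single_apply]
    exact if_congr ⟨cell_empty_inj, fun h => by rw [h]⟩ rfl rfl
  rw [Finset.sum_congr rfl this, Finset.sum_ite_eq']
  split_ifs <;> rfl

theorem bd_ch0 (Z : Finset Y.Om) :
    Y.bd (Y.ch0 Z) = ∑ x ∈ Z, ∑ s : S, Finsupp.single (Y.cell x {s}) 1 := by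
  unfold ch0
  rw [map_sum]
  refine Finset.sum_congr rfl fun x _ => ?_
  rw [bd_single]
  simp

theorem bd_ch1 (D : Finset (Y.Om × S)) :
    Y.bd (Y.ch1 D) = ∑ p ∈ D, ∑ t ∈ Finset.univ.filter (fun t => adj p.2 t),
      Finsupp.single (Y.cell p.1 {p.2, t}) 1 := by
  unfold ch1
  rw [map_sum]
  refine Finset.sum_congr rfl fun p _ => ?_
  rw [bd_single]
  simp [Finset.pair_comm]

end PS

theorem cvxPS_state (K : Finset W) : (cvxPS K).State where
  fold := fun {s x y y'} (a : y.1 = _) (b : y'.1 = _) => Subtype.ext (a.trans b.symm)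
  close := fun {s t x0 x1 x2 x3} h (a : x1.1 = _) (b : x2.1 = _) (c : x3.1 = _) => by
    show x0.1 = g t * x3.1
    rw [c, b, a, ← mul_assoc, ← mul_assoc, ← mul_assoc, ← g_comm h]
    simp [mul_assoc]

theorem fullPS_state (B : Type) [MulAction W B] [Finite B] : (fullPS B).State where
  fold := fun {s x y y'} (a : y = _) (b : y' = _) => a.trans b.symm
  close := by
    intro s t
    show ∀ {x0 x1 x2 x3 : B}, adj s t → x1 = g s • x0 → x2 = g t • x1 → x3 = g s • x2 →
      x0 = g t • x3
    intro x0 x1 x2 x3 h a b c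
    rw [c, b, a, smul_smul, smul_smul, smul_smul, ← g_comm h]
    simp [mul_assoc]

end Pool.Agent.MP_df844f_gt
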